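import Pool.Agent.TH992.T.Tail3
import Pool.Agent.H984R4.NP.Moments

/-!
Upper tail of the length of the exploration path.
-/

set_option autoImplicit false

namespace TH992.T

open H974 Finset Filter Topology H342P H984P H984N

/-- The number of corners of `v` with two arms at scale `s`. -/
noncomputable def xs (D : Dm) (s : ℕ) (v : Vtx) (F : Finset Edg) : ℝ :=
  ∑ q : Q4, (if (v, q) ∈ D.states then
    ind (min (s : ℤ) (D.bd v) ≤ 0 ∨ Two v (face (v, q)) (min (s : ℤ) (D.bd v)) (↑F)) else 0)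

theorem two_anti {u f : Vtx} {m m' : ℤ} (h : m' ≤ m) {F : Set Edg} (h2 : Two u f m F) :
    Two u f m' F := by
  obtain ⟨⟨w, h3, h4⟩, g, h5, h6⟩ := h2
  refine ⟨⟨w, ?_, h4⟩, g, ?_, h6⟩
  · unfold Far at h3 ⊢; omega
  · unfold FarF inF at h5 ⊢; omega

theorem ph_one_anti {a : ℝ} (ha : 0 ≤ a) {k k' : ℤ} (h : k' ≤ k) : ph 1 a k ≤ ph 1 a k' := by
  unfold ph
  split_ifs with h1 h2 h2
  · exact le_refl _
  · omega
  · rw [one_mul]
    have : (1 : ℝ) ≤ k := by exact_mod_cast (by omega : 1 ≤ k)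
    exact Real.rpow_le_one_of_one_le_of_nonpos this (by linarith)
  · rw [one_mul, one_mul]
    have h3 : (0 : ℝ) < k' := by exact_mod_cast (by omega : 0 < k')
    have h4 : (k' : ℝ) ≤ k := by exact_mod_cast h
    exact Real.rpow_le_rpow_of_nonpos h3 h4 (by linarith)

theorem ph_le_one_mul {C a : ℝ} (hC : 0 < C) (k : ℤ) : ph C a k ≤ (C + 1) * ph 1 a k := by
  have h0 := ph_nonneg (C := 1) (s := a) zero_le_one k
  unfold ph at h0 ⊢
  split_ifs with h
  · linarith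
  · rw [if_neg h] at h0
    rw [one_mul] at h0 ⊢
    nlinarith

theorem lineA {a : ℝ} (ha0 : 0 ≤ a) (ha1 : a < 1) {s : ℕ} (hs : 1 ≤ s) (b l : ℤ) :
    ∑ x ∈ Finset.Ico b (b + s), (if l ≤ x then ph 1 a (x - l) else 0) ≤
      2 * ((1 + 1 / (1 - a)) * (s : ℝ) ^ (1 - a)) := by
  have h := sumb_one ha0 ha1 (n := s) (by exact_mod_cast hs) s (le_refl _) (max b l)
    ((Finset.Ico b (b + s)).filter (fun x => l ≤ x)) (by
      intro x hx
      rw [mem_filter, mem_Ico] at hx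
      rw [abs_le]
      omega)
  refine le_trans ?_ h
  rw [sum_filter]
  refine sum_le_sum fun x hx => ?_
  rw [mem_Ico] at hx
  split_ifs with h1
  · refine ph_one_anti ha0 ?_
    rw [abs_of_nonpos (by omega)]
    omega
  · exact le_refl _

theorem lineB {a : ℝ} (ha0 : 0 ≤ a) (ha1 : a < 1) {s : ℕ} (hs : 1 ≤ s) (b r : ℤ) :
    ∑ x ∈ Finset.Ico b (b + s), (if x ≤ r then ph 1 a (r - x) else 0) ≤
      2 * ((1 + 1 / (1 - a)) * (s : ℝ) ^ (1 - a)) := by
  have h := sumb_one ha0 ha1 (n := s) (by exact_mod_cast hs) s (le_refl _) (min (b + s) r)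
    ((Finset.Ico b (b + s)).filter (fun x => x ≤ r)) (by
      intro x hx
      rw [mem_filter, mem_Ico] at hx
      rw [abs_le]
      omega)
  refine le_trans ?_ h
  rw [sum_filter]
  refine sum_le_sum fun x hx => ?_
  rw [mem_Ico] at hx
  split_ifs with h1
  · refine ph_one_anti ha0 ?_
    rw [abs_of_nonneg (by omega)]
    omega
  · exact le_refl _

theorem xs_mem {D : Dm} {v : Vtx} {q : Q4} (h : (v, q) ∈ D.states) :
    (D.l ≤ v.1 ∧ v.1 ≤ D.r) ∧ 0 ≤ v.2 ∧ v.2 ≤ D.h := by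
  unfold Dm.states at h
  rw [mem_product, mem_product, mem_Icc, mem_Icc] at h
  exact h.1

theorem xs_mem' {D : Dm} {v : Vtx} (q : Q4) (h : (D.l ≤ v.1 ∧ v.1 ≤ D.r) ∧ 0 ≤ v.2 ∧ v.2 ≤ D.h) :
    (v, q) ∈ D.states := by
  unfold Dm.states
  rw [mem_product, mem_product, mem_Icc, mem_Icc]
  exact ⟨h, mem_univ _⟩

open Classical in
/-- the bound at a point -/
noncomputable def bpt (D : Dm) (a : ℝ) (s : ℕ) (v : Vtx) : ℝ :=
  ph 1 a s + ((if D.l ≤ v.1 then ph 1 a (v.1 - D.l) else 0) +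
    (if v.1 ≤ D.r then ph 1 a (D.r - v.1) else 0) +
    ((if 0 ≤ v.2 then ph 1 a (v.2 - 0) else 0) + (if v.2 ≤ D.h then ph 1 a (D.h - v.2) else 0)))

theorem bpt_le (D : Dm) {a : ℝ} (s : ℕ) {v : Vtx}
    (h : (D.l ≤ v.1 ∧ v.1 ≤ D.r) ∧ 0 ≤ v.2 ∧ v.2 ≤ D.h) :
    ph 1 a (min (s : ℤ) (D.bd v)) ≤ bpt D a s v := by
  unfold bpt
  rw [if_pos h.1.1, if_pos h.1.2, if_pos h.2.1, if_pos h.2.2]
  have h1 := ph_nonneg (s := a) zero_le_one (s : ℤ)
  have h2 := ph_nonneg (s := a) zero_le_one (v.1 - D.l)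
  have h3 := ph_nonneg (s := a) zero_le_one (D.r - v.1)
  have h4 := ph_nonneg (s := a) zero_le_one (v.2 - 0)
  have h5 := ph_nonneg (s := a) zero_le_one (D.h - v.2)
  have h6 := suma_min (s := a) zero_le_one D v
  rcases min_choice (s : ℤ) (D.bd v) with h | h <;> rw [h] <;> linarith

theorem bpt_nonneg (D : Dm) (a : ℝ) (s : ℕ) (v : Vtx) : 0 ≤ bpt D a s v := by
  unfold bpt
  have h1 := ph_nonneg (s := a) zero_le_one (s : ℤ)
  have h2 := ph_nonneg (s := a) zero_le_one (v.1 - D.l)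
  have h3 := ph_nonneg (s := a) zero_le_one (D.r - v.1)
  have h4 := ph_nonneg (s := a) zero_le_one (v.2 - 0)
  have h5 := ph_nonneg (s := a) zero_le_one (D.h - v.2)
  split_ifs <;> linarith

theorem bpt_sum (D : Dm) {a : ℝ} (ha0 : 0 ≤ a) (ha1 : a < 1) {s : ℕ} (hs : 1 ≤ s) (b c : ℤ) :
    ∑ v ∈ Bq b c s, bpt D a s v ≤ (1 + 8 * (1 + 1 / (1 - a))) * (s : ℝ) ^ (2 - a) := by
  have hs0 : (0 : ℝ) < s := by exact_mod_cast hs
  have l1 := lineA ha0 ha1 hs b D.l
  have l2 := lineB ha0 ha1 hs b D.r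
  have l3 := lineA ha0 ha1 hs c 0
  have l4 := lineB ha0 ha1 hs c D.h
  unfold bpt Bq
  rw [sum_product]
  simp only [sum_add_distrib, sum_const, nsmul_eq_mul, ← mul_sum, Int.card_Ico]
  have e1 : (((b + s - b).toNat : ℕ) : ℝ) = s := by simp
  have e2 : (((c + s - c).toNat : ℕ) : ℝ) = s := by simp
  rw [e1, e2]
  have e3 : (s : ℝ) * (s : ℝ) ^ (1 - a) = (s : ℝ) ^ (2 - a) := by
    rw [show (2 : ℝ) - a = 1 + (1 - a) by ring, Real.rpow_add hs0, Real.rpow_one]
  have e4 : (s : ℝ) * ((s : ℝ) * ph 1 a s) = (s : ℝ) ^ (2 - a) := by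
    unfold ph
    rw [if_neg (by exact_mod_cast (by omega : ¬ s ≤ 0)), one_mul]
    rw [show (2 : ℝ) - a = 1 + (1 + (-a)) by ring, Real.rpow_add hs0, Real.rpow_add hs0,
      Real.rpow_one]
    push_cast
    rfl
  rw [e4]
  have m1 := mul_le_mul_of_nonneg_left l1 hs0.le
  have m2 := mul_le_mul_of_nonneg_left l2 hs0.le
  have m3 := mul_le_mul_of_nonneg_left l3 hs0.le
  have m4 := mul_le_mul_of_nonneg_left l4 hs0.le
  have e5 : (s : ℝ) * (2 * ((1 + 1 / (1 - a)) * (s : ℝ) ^ (1 - a))) =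
      2 * (1 + 1 / (1 - a)) * (s : ℝ) ^ (2 - a) := by rw [← e3]; ring
  rw [e5] at m1 m2 m3 m4
  have e6 : (1 + 8 * (1 + 1 / (1 - a))) * (s : ℝ) ^ (2 - a) = (s : ℝ) ^ (2 - a) +
    4 * (2 * (1 + 1 / (1 - a)) * (s : ℝ) ^ (2 - a)) := by ring
  rw [e6]
  linarith

theorem xs_mean {C : ℝ} (hC : 0 < C) (hU : TwoUp C (1/4)) (D : Dm) (s : ℕ) (v : Vtx) :
    Ex (fun _ => (1/2:ℝ)) D.edges (xs D s v) ≤ 4 * (C + 1) * bpt D (1/4) s v := by
  unfold xs
  rw [Ex_sum]
  have hb := bpt_nonneg D (1/4) s v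
  have h1 : ∀ q ∈ (Finset.univ : Finset Q4), Ex (fun _ => (1/2:ℝ)) D.edges
      (fun F => if (v, q) ∈ D.states then ind (min (s : ℤ) (D.bd v) ≤ 0 ∨
        Two v (face (v, q)) (min (s : ℤ) (D.bd v)) (↑F)) else 0) ≤
        (C + 1) * bpt D (1/4) s v := by
    intro q _
    by_cases hq : (v, q) ∈ D.states
    · simp only [if_pos hq]
      refine le_trans ?_ ((ph_le_one_mul (a := 1/4) hC (min (s : ℤ) (D.bd v))).trans
        (mul_le_mul_of_nonneg_left (bpt_le D s (xs_mem hq)) (by linarith)))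
      rcases le_or_gt (min (s : ℤ) (D.bd v)) 0 with hm | hm
      · unfold ph
        rw [if_pos hm]
        exact Pr_le_one two_ok _ _
      · have h2 := two_pr1 hU (D := D) (σ := (v, q)) hm (min_le_right _ _)
        unfold ph
        rw [if_neg (by omega)]
        refine le_trans (le_of_eq ?_) h2
        unfold P Pr
        refine Ex_congr fun F _ => ?_
        congr 1
        simp only [eq_iff_iff]
        constructor
        · rintro (h3 | h3)
          · omega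
          · exact h3
        · exact Or.inr
    · simp only [if_neg hq]
      rw [Ex_const]
      positivity
  refine (sum_le_sum h1).trans ?_
  rw [sum_const, card_univ, Moments_card, nsmul_eq_mul]
  push_cast
  linarith

/-- the family of the exploration path -/
theorem xs_fam {C : ℝ} (hC : 0 < C) (hU : TwoUp C (1/4)) (D : Dm) :
    Fam (1/4) 4 (4 * (C + 1) * (1 + 8 * (1 + 1 / (1 - 1/4)))) (fun _ => (1/2:ℝ)) D.edges (xs D) where
  ok := two_ok
  nonneg s v F := by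
    unfold xs
    refine sum_nonneg fun q _ => ?_
    split_ifs
    · exact ind_nonneg _
    · exact le_refl _
  le s v F := by
    unfold xs
    have h : ∀ q ∈ (Finset.univ : Finset Q4), (if (v, q) ∈ D.states then
        ind (min (s : ℤ) (D.bd v) ≤ 0 ∨ Two v (face (v, q)) (min (s : ℤ) (D.bd v)) (↑F)) else 0) ≤
        (1 : ℝ) := by
      intro q _
      split_ifs
      · exact ind_le_one _
      · exact zero_le_one
    refine (sum_le_sum h).trans ?_
    rw [sum_const, card_univ, Moments_card, nsmul_eq_mul]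
    norm_num
  anti s s' v F h := by
    unfold xs
    refine sum_le_sum fun q _ => ?_
    split_ifs with hq
    · have hmin : min (s' : ℤ) (D.bd v) ≤ min (s : ℤ) (D.bd v) := by omega
      refine ind_mono ?_
      rintro (h1 | h1)
      · exact Or.inl (hmin.trans h1)
      · exact Or.inr (two_anti hmin h1)
    · exact le_refl _
  loc s v F hF := by
    unfold xs
    refine sum_congr rfl fun q _ => ?_
    split_ifs with hq
    · congr 1
      rcases le_or_gt (min (s : ℤ) (D.bd v)) 0 with hm | hm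
      · simp only [hm, true_or]
      · rw [two_inter hm F (T := RE (v.1 - s) (v.1 + s) (v.2 - s) (v.2 + s) ∩ D.edges)]
        refine subset_inter (RE_sub_RE (by omega) (by omega) (by omega) (by omega)) ?_
        exact one_box (min_le_right _ _)
    · rfl
  mean s hs b c := by
    refine (sum_le_sum fun v _ => xs_mean hC hU D s v).trans ?_
    rw [← mul_sum, mul_assoc (4 * (C + 1))]
    exact mul_le_mul_of_nonneg_left (bpt_sum D (by norm_num) (by norm_num) hs b c) (by positivity)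

/-- the length is dominated -/
theorem len_le {D : Dm} (hD : D.Ok) {F : Finset Edg} (hF : F ⊆ D.edges) {s : ℕ}
    (h1 : D.r - D.l < s) (h2 : D.h < s) : (D.len F : ℝ) + 1 ≤ Nb (xs D) s D.l 0 F := by
  have e := Moments_sum hD hF (fun _ => (1 : ℝ))
  simp only [sum_const, card_range, nsmul_eq_mul, mul_one] at e
  have e2 : (D.len F : ℝ) + 1 = ∑ σ ∈ D.states, ind (D.Vis F σ) := by
    rw [← e]; push_cast; ring
  rw [e2]
  unfold Dm.states Nb
  rw [sum_product]
  have hsub : Finset.Icc D.l D.r ×ˢ Finset.Icc 0 D.h ⊆ Bq D.l 0 s := by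
    intro v hv
    rw [mem_product, mem_Icc, mem_Icc] at hv
    rw [mem_Bq]
    omega
  refine le_trans (sum_le_sum fun v hv => ?_) (sum_le_sum_of_subset_of_nonneg hsub fun v _ _ => ?_)
  · unfold xs
    refine sum_le_sum fun q _ => ?_
    rw [mem_product, mem_Icc, mem_Icc] at hv
    rw [if_pos (xs_mem' q hv)]
    refine ind_mono fun h => ?_
    rcases le_or_gt (min (s : ℤ) (D.bd v)) 0 with hm | hm
    · exact Or.inl hm
    · exact Or.inr (vis_two hD hF h hm (min_le_right _ _))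
  · unfold xs
    refine sum_nonneg fun q _ => ?_
    split_ifs
    · exact ind_nonneg _
    · exact le_refl _

/-- upper tail of the length -/
theorem len_tail {C : ℝ} (hC : 0 < C) (hU : TwoUp C (1/4)) : ∃ l : ℝ, 0 < l ∧
    ∀ (D : Dm) (n : ℝ), D.Ok → 1 ≤ n → ((D.r - D.l : ℤ) : ℝ) ≤ n → (D.h : ℝ) ≤ n →
    ∀ u : ℝ, 0 ≤ u → P D.edges (fun F => u * n ^ (7/4 : ℝ) ≤ (D.len F : ℝ)) ≤
      9 * Real.exp (-(u / l) ^ (8 : ℕ)) := by
  obtain ⟨l, hl, h⟩ := tail1 (a := 1/4) (C0 := 4 * (C + 1) * (1 + 8 * (1 + 1 / (1 - 1/4))))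
    (by norm_num) (by norm_num) 4 (by positivity)
  refine ⟨4 * l, by positivity, fun D n hD hn h1 h2 u hu => ?_⟩
  obtain ⟨s, hs⟩ : ∃ s : ℕ, s = ⌊n⌋₊ + 1 := ⟨_, rfl⟩
  have hs1 : 1 ≤ s := by omega
  have hsn : n < s := by rw [hs]; push_cast; exact Nat.lt_floor_add_one n
  have hs2 : (s : ℝ) ≤ 2 * n := by
    rw [hs]; push_cast
    have := Nat.floor_le (by linarith : 0 ≤ n)
    linarith
  have g1 : D.r - D.l < s := by exact_mod_cast h1.trans_lt hsn
  have g2 : D.h < s := by exact_mod_cast h2.trans_lt hsn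
  have key := h (fun _ => (1/2:ℝ)) D.edges (xs D) (xs_fam hC hU D) s D.l 0 (u / 4) hs1 (by positivity)
  have e1 : ((u / 4) / l) ^ (2 / (1/4) : ℝ) = (u / (4 * l)) ^ (8 : ℕ) := by
    rw [show (2 / (1/4) : ℝ) = ((8 : ℕ) : ℝ) by norm_num, Real.rpow_natCast]
    congr 1
    field_simp
  rw [e1] at key
  refine le_trans ?_ key
  refine Pr_mono two_ok fun F hF hx => ?_
  have hlen := len_le hD hF g1 g2
  unfold Yb
  have hs0 : (0 : ℝ) < s := by exact_mod_cast hs1
  rw [le_div_iff₀ (Real.rpow_pos_of_pos hs0 _)]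
  have e2 : (2 - 1/4 : ℝ) = 7/4 := by norm_num
  rw [e2]
  have h3 : (s : ℝ) ^ (7/4 : ℝ) ≤ 4 * n ^ (7/4 : ℝ) := by
    calc (s : ℝ) ^ (7/4 : ℝ) ≤ (2 * n) ^ (7/4 : ℝ) := Real.rpow_le_rpow hs0.le hs2 (by norm_num)
      _ = 2 ^ (7/4 : ℝ) * n ^ (7/4 : ℝ) := Real.mul_rpow (by norm_num) (by linarith)
      _ ≤ 4 * n ^ (7/4 : ℝ) := by
        refine mul_le_mul_of_nonneg_right ?_ (Real.rpow_nonneg (by linarith) _)
        calc (2 : ℝ) ^ (7/4 : ℝ) ≤ 2 ^ (2 : ℝ) :=
              Real.rpow_le_rpow_of_exponent_le (by norm_num) (by norm_num)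
          _ = 4 := by norm_num
  calc u / 4 * (s : ℝ) ^ (7/4 : ℝ) ≤ u / 4 * (4 * n ^ (7/4 : ℝ)) :=
        mul_le_mul_of_nonneg_left h3 (by positivity)
    _ = u * n ^ (7/4 : ℝ) := by ring
    _ ≤ (D.len F : ℝ) := hx
    _ ≤ _ := by linarith

end TH992.T
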