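import Pool.Agent.TH992.T.Low2
import Pool.Agent.TH992.T.Up

/-!
Lower tail of the number of steps: moments given the teeth.
-/

set_option autoImplicit false

namespace TH992.T

open H974 Finset H342P H984P H984N

open Classical in
/-- the vertices in the middle of the periods -/
noncomputable def Ws (D : Dm) (a I : ℕ) : Finset Vtx :=
  (Finset.Icc D.l D.r ×ˢ Finset.Icc 0 D.h).filter (Mid D a I)

/-- number of mid vertices with arms, given teeth -/
noncomputable def NT (D : Dm) (a I : ℕ) (F : Finset Edg) : ℝ :=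
  ∑ v ∈ Ws D a I, ind (RA v a (↑F) ∧ (TA D a I F ∧ TB D a I F))

theorem NT_le {D : Dm} (hD : D.Ok) {a I : ℕ} (ha : 1 ≤ a) (hH : Hgt D a I) {F : Finset Edg}
    (hF : F ⊆ D.edges) : NT D a I F ≤ (D.len F : ℝ) + 1 := by
  classical
  have e := Moments_sum hD hF (fun _ => (1 : ℝ))
  simp only [sum_const, card_range, nsmul_eq_mul, mul_one] at e
  have e2 : (D.len F : ℝ) + 1 = ∑ σ ∈ D.states, ind (D.Vis F σ) := by
    rw [← e]; push_cast; ring
  rw [e2]
  have h1 : NT D a I F ≤ ∑ v ∈ Ws D a I, ind (D.Vis F (v, Q4.ne)) := by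
    unfold NT
    refine sum_le_sum fun v hv => ind_mono fun h => ?_
    unfold Ws at hv
    rw [mem_filter] at hv
    exact vis_teeth hD ha hH hv.2 hF h.1 h.2.1 h.2.2
  refine h1.trans ?_
  have h2 : ∑ v ∈ Ws D a I, ind (D.Vis F (v, Q4.ne)) =
      ∑ σ ∈ (Ws D a I).image (fun v => ((v, Q4.ne) : St)), ind (D.Vis F σ) := by
    rw [sum_image]
    intro v _ v' _ h
    exact (Prod.mk.inj h).1
  rw [h2]
  refine sum_le_sum_of_subset_of_nonneg ?_ (fun _ _ _ => ind_nonneg _)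
  intro σ hσ
  rw [mem_image] at hσ
  obtain ⟨v, hv, rfl⟩ := hσ
  unfold Ws at hv
  rw [mem_filter, mem_product, mem_Icc, mem_Icc] at hv
  exact xs_mem' _ hv.1

theorem NT_off {D : Dm} {a I : ℕ} {F : Finset Edg} (h : ¬ (TA D a I F ∧ TB D a I F)) :
    NT D a I F = 0 := by
  unfold NT
  refine sum_eq_zero fun v _ => ind_not_of fun h' => h h'.2

theorem card_Ws {D : Dm} {a I : ℕ} (ha : 1 ≤ a) (hH : Hgt D a I) {n1 : ℕ}
    (h1 : (n1 : ℤ) ≤ D.r - D.l - 26 * a) : n1 * (I * (4 * a)) ≤ (Ws D a I).card := by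
  classical
  have h2 : (range n1 ×ˢ (range I ×ˢ range (4 * a))).card = n1 * (I * (4 * a)) := by
    rw [card_product, card_product, card_range, card_range, card_range]
  rw [← h2]
  refine card_le_card_of_injOn (fun q => ((D.l + 13 * a + q.1, ys a q.2.1 + 8 * a + q.2.2) : Vtx))
    ?_ ?_
  · rintro ⟨k, i, j⟩ hq
    simp only [coe_product, coe_range, Set.mem_prod, Set.mem_Iio] at hq
    obtain ⟨hk, hi, hj⟩ := hq
    have h3 := hH i hi
    have h4 := ys_ge a i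
    rw [mem_coe]
    unfold Ws
    rw [mem_filter, mem_product, mem_Icc, mem_Icc]
    refine ⟨⟨⟨?_, ?_⟩, ?_, ?_⟩, ⟨?_, ?_, i, hi, ?_, ?_⟩⟩
    all_goals simp only
    all_goals omega
  · rintro ⟨k, i, j⟩ hq ⟨k', i', j'⟩ hq' h
    simp only [coe_product, coe_range, Set.mem_prod, Set.mem_Iio] at hq hq'
    simp only [Prod.mk.injEq] at h
    obtain ⟨hk, hy⟩ := h
    have hij : i = i' := by
      rcases lt_trichotomy i i' with h | h | h
      · have := ys_lt (a := a) h; omega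
      · exact h
      · have := ys_lt (a := a) h; omega
    subst hij
    simp only [Prod.mk.injEq, true_and]
    omega

theorem NT_ex {c : ℝ} (hL : LowA c (1/4)) {D : Dm} {a I : ℕ} (ha : 1 ≤ a)
    (hH : Hgt D a I) : ((Ws D a I).card : ℝ) * (c * (a:ℝ) ^ (-(1/4) : ℝ)) *
      (P D.edges (TA D a I) * P D.edges (TB D a I)) ≤ E D.edges (NT D a I) := by
  classical
  unfold NT E
  rw [Ex_sum, mul_assoc, ← nsmul_eq_mul, ← sum_const]
  refine sum_le_sum fun v hv => ?_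
  unfold Ws at hv
  rw [mem_filter] at hv
  refine le_trans ?_ (teeth_harris ha hH hv.2)
  exact mul_le_mul_of_nonneg_right (ra_ge hL ha hH hv.2)
    (mul_nonneg (Pr_nonneg two_ok _ _) (Pr_nonneg two_ok _ _))

/-- second moment -/
theorem len_sq {C : ℝ} (hC : 0 < C) (hU : TwoUp C (1/4)) {C2 : ℝ} (hC2 : 0 < C2)
    (hA : AnnUp C2) : ∃ C' : ℝ, 0 < C' ∧ ∀ (D : Dm) (n : ℝ), D.Ok → 1 ≤ n →
      ((D.r - D.l : ℤ) : ℝ) ≤ n → (D.h : ℝ) ≤ n →
      E D.edges (fun F => ((D.len F : ℝ) + 1) ^ 2) ≤ C' * n ^ (7/2 : ℝ) := by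
  obtain ⟨C', hC', h⟩ := energy_moment hC hU hC2 hA (α := 0) le_rfl (by norm_num)
  refine ⟨C', hC', fun D n hD hn h1 h2 => ?_⟩
  have h3 := h D n hD hn h1 h2
  rw [sub_zero] at h3
  refine le_trans (le_of_eq ?_) h3
  unfold E
  refine Ex_congr fun F _ => ?_
  unfold energy
  simp only [neg_zero, Real.rpow_zero, sum_const, card_range, nsmul_eq_mul, mul_one]
  push_cast
  ring

/-- Paley–Zygmund with teeth -/
theorem pz_teeth {c : ℝ} (hc : 0 < c) (hL : LowA c (1/4)) {D : Dm} (hD : D.Ok) {a I : ℕ}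
    (ha : 1 ≤ a) (hH : Hgt D a I) {M2 w : ℝ} (hw0 : 0 ≤ w) (hw : w ≤ ((Ws D a I).card : ℝ))
    (hM : E D.edges (fun F => ((D.len F : ℝ) + 1) ^ 2) ≤ M2) {q : ℝ} (hq0 : 0 ≤ q)
    (hqA : q ≤ P D.edges (TA D a I)) (hqB : q ≤ P D.edges (TB D a I)) :
    (w * (c * (a:ℝ) ^ (-(1/4) : ℝ)) / 2 * (q * q)) ^ 2 ≤ M2 *
      P D.edges (fun F => w * (c * (a:ℝ) ^ (-(1/4) : ℝ)) / 2 ≤ (D.len F : ℝ) + 1) := by
  obtain ⟨μ, hμ⟩ : ∃ μ : ℝ, μ = w * (c * (a:ℝ) ^ (-(1/4) : ℝ)) := ⟨_, rfl⟩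
  have hμ0 : 0 ≤ μ := by rw [hμ]; positivity
  rw [← hμ]
  obtain ⟨Q, hQ⟩ : ∃ Q : ℝ, Q = P D.edges (TA D a I) * P D.edges (TB D a I) := ⟨_, rfl⟩
  have hQq : q * q ≤ Q := by
    rw [hQ]
    exact mul_le_mul hqA hqB hq0 (hq0.trans hqA)
  have hT : P D.edges (fun F => TA D a I F ∧ TB D a I F) = Q := by
    rw [hQ]
    exact Pr_indep (E1_sub hH) (E2_sub ha hH) (E12_disj ha) (fun F _ => TA_local F)
      (fun F _ => TB_local F)
  have h1 : μ * Q ≤ E D.edges (NT D a I) := by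
    refine le_trans ?_ (NT_ex hL ha hH)
    rw [← hQ, hμ]
    refine mul_le_mul_of_nonneg_right ?_ ((mul_nonneg hq0 hq0).trans hQq)
    exact mul_le_mul_of_nonneg_right hw (by positivity)
  have h2 : E D.edges (NT D a I) ≤ μ / 2 * Q +
      E D.edges (fun F => ((D.len F : ℝ) + 1) * ind (μ / 2 ≤ (D.len F : ℝ) + 1)) := by
    rw [← hT]
    unfold P Pr E
    rw [← Ex_mul_left, ← Ex_add]
    refine Ex_mono two_ok fun F hF => ?_
    have g1 := NT_le hD ha hH hF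
    by_cases hB : μ / 2 ≤ (D.len F : ℝ) + 1
    · rw [ind_of hB, mul_one]
      have := ind_nonneg (TA D a I F ∧ TB D a I F)
      have h3 : 0 ≤ μ / 2 * ind (TA D a I F ∧ TB D a I F) := by positivity
      linarith
    · rw [ind_not_of hB, mul_zero, add_zero]
      by_cases hT : TA D a I F ∧ TB D a I F
      · rw [ind_of hT]; linarith
      · rw [ind_not_of hT, NT_off hT]; simp
  have h3 : μ / 2 * Q ≤
      E D.edges (fun F => ((D.len F : ℝ) + 1) * ind (μ / 2 ≤ (D.len F : ℝ) + 1)) := by linarith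
  have h4 := Ex_cs two_ok D.edges (fun F => (D.len F : ℝ) + 1)
    (fun F => ind (μ / 2 ≤ (D.len F : ℝ) + 1))
  have h5 : Ex (fun _ => (1/2:ℝ)) D.edges (fun F => (ind (μ / 2 ≤ (D.len F : ℝ) + 1)) ^ 2) =
      P D.edges (fun F => μ / 2 ≤ (D.len F : ℝ) + 1) := by
    unfold P Pr
    refine Ex_congr fun F _ => ?_
    rw [sq, ind_sq]
  rw [h5] at h4
  have h6 : μ / 2 * (q * q) ≤ μ / 2 * Q := mul_le_mul_of_nonneg_left hQq (by linarith)
  calc (μ / 2 * (q * q)) ^ 2 ≤ (E D.edges (fun F => ((D.len F : ℝ) + 1) *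
        ind (μ / 2 ≤ (D.len F : ℝ) + 1))) ^ 2 := by
        apply pow_le_pow_left₀ (by positivity) (h6.trans h3)
    _ ≤ _ := h4
    _ ≤ _ := mul_le_mul_of_nonneg_right hM (Pr_nonneg two_ok _ _)

end TH992.T
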