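import Pool.Agent.TH992.T.Low3

/-!
Lower tail of the number of steps.
-/

set_option autoImplicit false

namespace TH992.T

open H974 Finset H342P H984P H984N

theorem log_q0 : Real.log q0 ≤ 0 := Real.log_nonpos q0_pos.le q0_le

/-- The number of steps is large with a probability which is not too small, at scale `a`. -/
theorem len_low {c : ℝ} (hc : 0 < c) (hL : LowA c (1/4)) {C : ℝ} (hC : 0 < C)
    (hU : TwoUp C (1/4)) {C2 : ℝ} (hC2 : 0 < C2) (hA : AnnUp C2) {κ : ℝ} (hκ : 0 < κ) :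
    ∃ c1 K1 : ℝ, 0 < c1 ∧ 0 < K1 ∧ ∀ (D : Dm) (n : ℝ), D.Shape κ n → ∀ a : ℕ, 1 ≤ a →
      160 * (a : ℝ) ≤ κ * n → Real.exp (-(K1 * (n / a) ^ 2)) ≤
        P D.edges (fun F => c1 * (n ^ 2 * (a : ℝ) ^ (-(1/4) : ℝ)) ≤ (D.len F : ℝ) + 1) := by
  obtain ⟨C', hC', hsq⟩ := len_sq hC hU hC2 hA
  obtain ⟨c1, hc1⟩ : ∃ c1 : ℝ, c1 = κ ^ 2 * c / 40 := ⟨_, rfl⟩
  have hc10 : 0 < c1 := by rw [hc1]; positivity
  have hcc : 0 < c1 ^ 2 / C' := by positivity
  refine ⟨c1, |Real.log (c1 ^ 2 / C')| + (1 - Real.log q0), hc10, by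
    have := log_q0
    have := abs_nonneg (Real.log (c1 ^ 2 / C'))
    linarith, ?_⟩
  intro D n hS a ha han
  have hD := hS.ok
  have haR : (1 : ℝ) ≤ a := by exact_mod_cast ha
  have ha0 : (0 : ℝ) < a := by linarith
  have hn0 : 0 < n := by
    by_contra hcon
    push Not at hcon
    nlinarith
  have hl := hS.l_ge
  have hr := hS.r_ge
  have hh := hS.h_ge
  have hw := hS.w_le
  have hhn := hS.h_le
  push_cast at hw
  have hκn : κ * n ≤ n / 2 := by linarith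
  have hna : 320 * (a : ℝ) ≤ n := by linarith
  have hn1 : 1 ≤ n := by linarith
  -- the number of periods
  obtain ⟨I, hI⟩ : ∃ I : ℕ, I = D.h.toNat / (40 * a) := ⟨_, rfl⟩
  have hhpos := hD.h_pos
  have hcast : ((D.h.toNat : ℕ) : ℝ) = (D.h : ℝ) := by
    have : ((D.h.toNat : ℕ) : ℤ) = D.h := Int.toNat_of_nonneg hhpos.le
    exact_mod_cast this
  have hI1 : 40 * a * I ≤ D.h.toNat := by rw [hI]; exact Nat.mul_div_le _ _
  have hI2 : D.h.toNat < 40 * a * (I + 1) := by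
    rw [hI]; exact Nat.lt_mul_div_succ _ (by omega)
  have hI1' : 40 * (a : ℝ) * I ≤ n := by
    have : ((40 * a * I : ℕ) : ℝ) ≤ ((D.h.toNat : ℕ) : ℝ) := by exact_mod_cast hI1
    rw [hcast] at this
    push_cast at this
    linarith
  have hI2' : κ * n ≤ 40 * (a : ℝ) * (I + 1) := by
    have : ((D.h.toNat : ℕ) : ℝ) ≤ ((40 * a * (I + 1) : ℕ) : ℝ) := by exact_mod_cast hI2.le
    rw [hcast] at this
    push_cast at this
    linarith
  have hI3 : κ * n ≤ 80 * (a : ℝ) * I := by linarith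
  have hH : Hgt D a I := by
    intro i hi
    unfold ys
    have h1 : 40 * a * (i + 1) ≤ 40 * a * I := Nat.mul_le_mul_left _ hi
    have h2 : 40 * a * (i + 1) = 40 * a * i + 40 * a := by ring
    omega
  -- the vertices
  obtain ⟨n1, hn1'⟩ : ∃ n1 : ℕ, n1 = (D.r - D.l - 26 * a).toNat := ⟨_, rfl⟩
  have hwid : (0 : ℝ) ≤ (D.r : ℝ) - D.l - 26 * a := by linarith
  have hwid' : (0 : ℤ) ≤ D.r - D.l - 26 * a := by exact_mod_cast hwid
  have hn1c : ((n1 : ℕ) : ℤ) = D.r - D.l - 26 * a := by rw [hn1']; exact Int.toNat_of_nonneg hwid'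
  have hn1r : (n1 : ℝ) = (D.r : ℝ) - D.l - 26 * a := by exact_mod_cast hn1c
  have hn1g : κ * n ≤ n1 := by rw [hn1r]; linarith
  have hcard := card_Ws ha hH (n1 := n1) (by omega)
  have hcard' : κ ^ 2 * n ^ 2 / 20 ≤ ((Ws D a I).card : ℝ) := by
    have h1 : ((n1 * (I * (4 * a)) : ℕ) : ℝ) ≤ ((Ws D a I).card : ℝ) := by exact_mod_cast hcard
    push_cast at h1
    have h2 : κ * n / 20 ≤ (I : ℝ) * (4 * a) := by linarith
    have h3 : (κ * n) * (κ * n / 20) ≤ (n1 : ℝ) * ((I : ℝ) * (4 * a)) :=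
      mul_le_mul hn1g h2 (by positivity) (Nat.cast_nonneg _)
    have e : κ ^ 2 * n ^ 2 / 20 = (κ * n) * (κ * n / 20) := by ring
    rw [e]
    linarith
  -- the strips
  obtain ⟨m, hm⟩ : ∃ m : ℕ, m = ⌊n / (32 * a)⌋₊ := ⟨_, rfl⟩
  have hm1 : (m : ℝ) ≤ n / (32 * a) := by rw [hm]; exact Nat.floor_le (by positivity)
  have hm2 : n / (32 * a) < m + 1 := by rw [hm]; exact Nat.lt_floor_add_one _
  have hmr : D.r - D.l ≤ 8 * (4 * (a : ℤ)) * m + 8 * (4 * (a : ℤ)) := by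
    rw [div_lt_iff₀ (by positivity)] at hm2
    have h1 : (D.r : ℝ) - D.l ≤ 8 * (4 * (a : ℝ)) * m + 8 * (4 * (a : ℝ)) := by
      linarith
    exact_mod_cast h1
  have hlr : D.l < D.r := by have := hD.l_neg; have := hD.r_pos; omega
  have ha4 : (1 : ℤ) ≤ 4 * (a : ℤ) := by
    have : (1 : ℤ) ≤ a := by exact_mod_cast ha
    omega
  have s1 := strips (S := D.edges) hlr ha4 hmr (ys a) I (fun i hi e he =>
    E1_sub hH (mem_E1.mpr ⟨i, hi, he⟩))
  have s2 := dstrips (S := D.edges) hlr ha4 hmr (fun i => ys a i + 16 * a) I (fun i hi e he => by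
    rw [mem_dmp]
    refine E2_sub ha hH (mem_E2.mpr ⟨i, hi, ?_⟩)
    rw [Equiv.apply_symm_apply]
    exact he)
  obtain ⟨q, hq⟩ : ∃ q : ℝ, q = q0 ^ ((2 * m + 1) * I) := ⟨_, rfl⟩
  rw [← hq] at s1 s2
  have hq0 : 0 < q := by rw [hq]; exact pow_pos q0_pos _
  have key := pz_teeth hc hL hD ha hH (w := κ ^ 2 * n ^ 2 / 20) (by positivity) hcard'
    (hsq D n hD hn1 (by push_cast; exact hw) hhn) hq0.le s1 s2
  have e1 : κ ^ 2 * n ^ 2 / 20 * (c * (a : ℝ) ^ (-(1/4) : ℝ)) / 2 =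
      c1 * (n ^ 2 * (a : ℝ) ^ (-(1/4) : ℝ)) := by rw [hc1]; ring
  rw [e1] at key
  obtain ⟨PP, hPP⟩ : ∃ PP : ℝ, PP =
    P D.edges (fun F => c1 * (n ^ 2 * (a : ℝ) ^ (-(1/4) : ℝ)) ≤ (D.len F : ℝ) + 1) := ⟨_, rfl⟩
  rw [← hPP] at key ⊢
  -- lower bound of the left hand side
  have h1 : c1 ^ 2 * n ^ (7/2 : ℝ) ≤ (c1 * (n ^ 2 * (a : ℝ) ^ (-(1/4) : ℝ))) ^ 2 := by
    have h2 : n ^ (-(1/4) : ℝ) ≤ (a : ℝ) ^ (-(1/4) : ℝ) :=
      Real.rpow_le_rpow_of_nonpos ha0 (by linarith) (by norm_num)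
    have h3 : n ^ (7/4 : ℝ) ≤ n ^ 2 * (a : ℝ) ^ (-(1/4) : ℝ) := by
      calc n ^ (7/4 : ℝ) = n ^ 2 * n ^ (-(1/4) : ℝ) := by
            rw [← Real.rpow_natCast, ← Real.rpow_add hn0]; norm_num
        _ ≤ _ := mul_le_mul_of_nonneg_left h2 (by positivity)
    have h4 : n ^ (7/2 : ℝ) = (n ^ (7/4 : ℝ)) ^ 2 := by
      rw [← Real.rpow_natCast, ← Real.rpow_mul hn0.le]; norm_num
    rw [h4, mul_pow]
    refine mul_le_mul_of_nonneg_left ?_ (by positivity)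
    exact pow_le_pow_left₀ (by positivity) h3 2
  have h5 : c1 ^ 2 / C' * q ^ 4 ≤ PP := by
    have hnn : 0 < n ^ (7/2 : ℝ) := Real.rpow_pos_of_pos hn0 _
    have h6 : (c1 ^ 2 * n ^ (7/2 : ℝ)) * q ^ 4 ≤ C' * n ^ (7/2 : ℝ) * PP := by
      refine le_trans ?_ key
      rw [mul_pow _ (q * q)]
      have e : (q * q) ^ 2 = q ^ 4 := by ring
      rw [e]
      exact mul_le_mul_of_nonneg_right h1 (by positivity)
    rw [div_mul_eq_mul_div, div_le_iff₀ hC']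
    have h7 : n ^ (7/2 : ℝ) * (c1 ^ 2 * q ^ 4) ≤ n ^ (7/2 : ℝ) * (PP * C') := by linarith
    exact le_of_mul_le_mul_left h7 hnn
  refine le_trans ?_ h5
  obtain ⟨Z, hZ⟩ : ∃ Z : ℝ, Z = (n / a) ^ 2 := ⟨_, rfl⟩
  rw [← hZ]
  have hZ1 : 1 ≤ Z := by
    rw [hZ]
    have : 1 ≤ n / a := by rw [le_div_iff₀ ha0]; linarith
    nlinarith
  have h8 : Real.exp (-(1 - Real.log q0) * Z) ≤ q ^ 4 := by
    rw [hq, ← pow_mul]
    have e : q0 ^ ((2 * m + 1) * I * 4) =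
        Real.exp ((((2 * m + 1) * I * 4 : ℕ) : ℝ) * Real.log q0) := by
      rw [Real.exp_nat_mul, Real.exp_log q0_pos]
    rw [e]
    refine Real.exp_le_exp.mpr ?_
    have h9 : (((2 * m + 1) * I * 4 : ℕ) : ℝ) ≤ Z := by
      push_cast
      have g1 : 2 * (m : ℝ) + 1 ≤ 2 * (n / a) := by
        have e : n / (32 * (a : ℝ)) = (n / a) / 32 := by field_simp
        rw [e] at hm1
        have : 1 ≤ n / a := by rw [le_div_iff₀ ha0]; linarith
        linarith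
      have g2 : (I : ℝ) ≤ (n / a) / 40 := by
        have e : (n / a) / 40 = n / (40 * a) := by field_simp
        rw [e, le_div_iff₀ (by positivity)]
        linarith
      have g3 : (2 * (m : ℝ) + 1) * I ≤ (2 * (n / a)) * ((n / a) / 40) :=
        mul_le_mul g1 g2 (Nat.cast_nonneg _) (by positivity)
      rw [hZ]
      nlinarith [sq_nonneg (n / (a : ℝ))]
    have h10 := log_q0
    nlinarith
  have h11 : Real.exp (-|Real.log (c1 ^ 2 / C')| * Z) ≤ c1 ^ 2 / C' := by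
    rw [← Real.exp_log hcc]
    refine Real.exp_le_exp.mpr ?_
    rw [Real.exp_log hcc]
    have g1 := neg_abs_le (Real.log (c1 ^ 2 / C'))
    have g2 := abs_nonneg (Real.log (c1 ^ 2 / C'))
    nlinarith
  calc Real.exp (-((|Real.log (c1 ^ 2 / C')| + (1 - Real.log q0)) * Z))
      = Real.exp (-|Real.log (c1 ^ 2 / C')| * Z) * Real.exp (-(1 - Real.log q0) * Z) := by
        rw [← Real.exp_add]; congr 1; ring
    _ ≤ c1 ^ 2 / C' * q ^ 4 := mul_le_mul h11 h8 (Real.exp_pos _).le hcc.le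

theorem len_pos {D : Dm} (hD : D.Ok) {F : Finset Edg} (hF : F ⊆ D.edges) : 1 ≤ D.len F := by
  by_contra hcon
  have h0 : D.len F = 0 := by omega
  have h1 := walk_len hD hF
  rw [h0, walk_zero] at h1
  have h2 := congrArg (fun σ : St => σ.1.2) h1
  have h3 := hD.h_pos
  simp only [Dm.stop, Dm.start] at h2
  omega

/-- Lower bound for the tail of the number of steps. -/
theorem len_tail_low {c : ℝ} (hc : 0 < c) (hL : LowA c (1/4)) {C : ℝ} (hC : 0 < C)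
    (hU : TwoUp C (1/4)) {C2 : ℝ} (hC2 : 0 < C2) (hA : AnnUp C2) {κ : ℝ} (hκ : 0 < κ) :
    ∃ c2 K2 : ℝ, 0 < c2 ∧ 0 < K2 ∧ ∀ (D : Dm) (n : ℝ), D.Shape κ n → 0 < n → ∀ x : ℝ, 1 ≤ x →
      x ≤ c2 * n ^ (1/4 : ℝ) → Real.exp (-(K2 * x ^ 8)) ≤
        P D.edges (fun F => x * n ^ (7/4 : ℝ) ≤ (D.len F : ℝ)) := by
  obtain ⟨c1, K1, hc1, hK1, h⟩ := len_low hc hL hC hU hC2 hA hκ
  obtain ⟨B, hB⟩ : ∃ B : ℝ, B = (2 / c1) ^ 4 + 160 / κ := ⟨_, rfl⟩
  have hB0 : 0 < B := by rw [hB]; positivity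
  refine ⟨1 / (1 + B), 4 * B ^ 2 * K1, by positivity, by positivity, ?_⟩
  intro D n hS hn x hx hxn
  have hD := hS.ok
  obtain ⟨M, hM⟩ : ∃ M : ℝ, M = B * x ^ 4 := ⟨_, rfl⟩
  have hx4 : 1 ≤ x ^ 4 := one_le_pow₀ hx
  have hM0 : 0 < M := by rw [hM]; positivity
  have hM1 : 160 / κ ≤ M := by
    rw [hM, hB]
    have h1 : 0 ≤ (2 / c1) ^ 4 := by positivity
    have h2 : 0 ≤ 160 / κ := by positivity
    nlinarith
  have hM2 : (2 * x / c1) ^ 4 ≤ M := by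
    rw [hM, hB]
    have h1 : (2 * x / c1) ^ 4 = (2 / c1) ^ 4 * x ^ 4 := by
      rw [show 2 * x / c1 = 2 / c1 * x by ring, mul_pow]
    have h2 : 0 ≤ 160 / κ * x ^ 4 := by positivity
    rw [h1]
    linarith
  have hMn : M ≤ n := by
    have h1 : x ^ 4 ≤ (1 / (1 + B)) ^ 4 * n := by
      calc x ^ 4 ≤ (1 / (1 + B) * n ^ (1/4 : ℝ)) ^ 4 := pow_le_pow_left₀ (by linarith) hxn 4
        _ = (1 / (1 + B)) ^ 4 * n := by
          rw [mul_pow, ← Real.rpow_natCast (n ^ (1/4 : ℝ)), ← Real.rpow_mul hn.le]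
          norm_num
    have h2 : (1 / (1 + B)) ^ 4 ≤ 1 / (1 + B) := by
      have h3 : 1 / (1 + B) ≤ 1 := by
        rw [div_le_one (by linarith)]; linarith
      exact pow_le_of_le_one (by positivity) h3 (by norm_num)
    have h4 : B * (1 / (1 + B)) ≤ 1 := by
      rw [mul_one_div, div_le_one (by linarith)]; linarith
    calc M = B * x ^ 4 := hM
      _ ≤ B * ((1 / (1 + B)) ^ 4 * n) := mul_le_mul_of_nonneg_left h1 hB0.le
      _ ≤ B * (1 / (1 + B) * n) := by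
        refine mul_le_mul_of_nonneg_left ?_ hB0.le
        exact mul_le_mul_of_nonneg_right h2 hn.le
      _ = (B * (1 / (1 + B))) * n := by ring
      _ ≤ 1 * n := mul_le_mul_of_nonneg_right h4 hn.le
      _ = n := one_mul n
  obtain ⟨a, ha⟩ : ∃ a : ℕ, a = ⌊n / M⌋₊ := ⟨_, rfl⟩
  have h1M : 1 ≤ n / M := by rw [le_div_iff₀ hM0]; linarith
  have ha1 : 1 ≤ a := by rw [ha]; exact Nat.one_le_floor_iff _ |>.mpr h1M
  have haR : (1 : ℝ) ≤ a := by exact_mod_cast ha1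
  have ha0 : (0 : ℝ) < a := by linarith
  have haM : (a : ℝ) ≤ n / M := by rw [ha]; exact Nat.floor_le (by positivity)
  have haM2 : n / M < a + 1 := by rw [ha]; exact Nat.lt_floor_add_one _
  have hna : M ≤ n / a := by
    rw [le_div_iff₀ ha0]
    rw [le_div_iff₀ hM0] at haM
    linarith
  have hna2 : n / a ≤ 2 * M := by
    rw [div_le_iff₀ ha0]
    rw [div_lt_iff₀ hM0] at haM2
    nlinarith
  have h160 : 160 * (a : ℝ) ≤ κ * n := by
    rw [le_div_iff₀ ha0] at hna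
    have h1 : 160 / κ * a ≤ n := (mul_le_mul_of_nonneg_right hM1 ha0.le).trans hna
    rw [div_mul_eq_mul_div, div_le_iff₀ hκ] at h1
    linarith
  have key := h D n hS a ha1 h160
  refine le_trans ?_ (key.trans (Pr_mono two_ok fun F hF hlen => ?_))
  · refine Real.exp_le_exp.mpr ?_
    have h1 : (n / a) ^ 2 ≤ (2 * M) ^ 2 := pow_le_pow_left₀ (by positivity) hna2 2
    have h2 : (2 * M) ^ 2 = 4 * B ^ 2 * x ^ 8 := by rw [hM]; ring
    rw [h2] at h1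
    have h3 := mul_le_mul_of_nonneg_left h1 hK1.le
    linarith
  · have h1 := len_pos hD hF
    have h2 : (1 : ℝ) ≤ D.len F := by exact_mod_cast h1
    have h3 : 2 * x / c1 ≤ (n / a) ^ (1/4 : ℝ) := by
      calc 2 * x / c1 = ((2 * x / c1) ^ 4) ^ (1/4 : ℝ) := by
            rw [← Real.rpow_natCast, ← Real.rpow_mul (by positivity)]
            norm_num
        _ ≤ (n / a) ^ (1/4 : ℝ) :=
            Real.rpow_le_rpow (by positivity) (hM2.trans hna) (by norm_num)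
    have h4 : n ^ 2 * (a : ℝ) ^ (-(1/4) : ℝ) = n ^ (7/4 : ℝ) * (n / a) ^ (1/4 : ℝ) := by
      rw [Real.div_rpow hn.le ha0.le, Real.rpow_neg ha0.le, mul_div_assoc', ← Real.rpow_add hn]
      norm_num
      rfl
    rw [h4] at hlen
    have h5 : n ^ (7/4 : ℝ) * (2 * x) ≤ c1 * (n ^ (7/4 : ℝ) * (n / a) ^ (1/4 : ℝ)) := by
      rw [div_le_iff₀ hc1] at h3
      have h6 := mul_le_mul_of_nonneg_left h3 (Real.rpow_nonneg hn.le (7/4 : ℝ))
      linarith
    linarith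

end TH992.T
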