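import Pool.Agent.H974R2.Lattice

/-!
Chernoff bounds for grids of local variables (finite dependence).
-/

set_option autoImplicit false

namespace TH992.T

open H974 Finset

section abs

variable {E : Type*} [DecidableEq E]

/-- independence of finitely many local functions -/
theorem Ex_prod_indep {p : E → ℝ} {S : Finset E} {ι : Type*} [DecidableEq ι] (I : Finset ι)
    (T : ι → Finset E) (hT : ∀ i ∈ I, T i ⊆ S)
    (hd : ∀ i ∈ I, ∀ j ∈ I, i ≠ j → Disjoint (T i) (T j))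
    (f : ι → Finset E → ℝ) (hf : ∀ i ∈ I, ∀ F, F ⊆ S → f i F = f i (F ∩ T i)) :
    Ex p S (fun F => ∏ i ∈ I, f i F) = ∏ i ∈ I, Ex p S (f i) := by
  induction I using Finset.induction_on with
  | empty => simp [Ex_const]
  | insert i I hi ih =>
    have ih' := ih (fun j hj => hT j (mem_insert_of_mem hj))
      (fun j hj k hk => hd j (mem_insert_of_mem hj) k (mem_insert_of_mem hk))
      (fun j hj => hf j (mem_insert_of_mem hj))
    have h1 : Ex p S (fun F => f i F * ∏ j ∈ I, f j F) =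
        Ex p S (f i) * Ex p S (fun F => ∏ j ∈ I, f j F) := by
      refine Ex_mul_indep (S := T i) (T := I.biUnion T) (hT i (mem_insert_self i I)) ?_ ?_
        (hf i (mem_insert_self i I)) ?_
      · exact biUnion_subset.mpr fun j hj => hT j (mem_insert_of_mem hj)
      · rw [disjoint_biUnion_right]
        intro j hj
        exact hd i (mem_insert_self i I) j (mem_insert_of_mem hj) (fun h => hi (h ▸ hj))
      · intro F hF
        refine prod_congr rfl fun j hj => ?_
        have h2 := hf j (mem_insert_of_mem hj)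
        rw [h2 F hF, h2 (F ∩ I.biUnion T) (inter_subset_left.trans hF), inter_assoc]
        congr 2
        exact (inter_eq_right.mpr (subset_biUnion_of_mem T hj)).symm
    rw [prod_insert hi, ← ih', ← h1]
    refine Ex_congr fun F _ => ?_
    rw [prod_insert hi]

/-- Chernoff bound for independent variables -/
theorem chern1 {p : E → ℝ} (hp : Ok p) {S : Finset E} {ι : Type*} [DecidableEq ι] (I : Finset ι)
    (T : ι → Finset E) (hT : ∀ i ∈ I, T i ⊆ S)
    (hd : ∀ i ∈ I, ∀ j ∈ I, i ≠ j → Disjoint (T i) (T j))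
    (Y : ι → Finset E → ℝ) (hY : ∀ i ∈ I, ∀ F, F ⊆ S → Y i F = Y i (F ∩ T i)) {M : ℝ}
    (hM : ∀ i ∈ I, Ex p S (fun F => Real.exp (Y i F)) ≤ M) (t : ℝ) :
    Pr p S (fun F => t ≤ ∑ i ∈ I, Y i F) ≤ Real.exp (-t) * M ^ I.card := by
  have h1 : Pr p S (fun F => t ≤ ∑ i ∈ I, Y i F) ≤
      Ex p S (fun F => Real.exp (-t) * ∏ i ∈ I, Real.exp (Y i F)) := by
    unfold Pr
    refine Ex_mono hp fun F _ => ?_
    rw [← Real.exp_sum, ← Real.exp_add]
    by_cases h : t ≤ ∑ i ∈ I, Y i F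
    · rw [ind_of h]
      exact Real.one_le_exp (by linarith)
    · rw [ind_not_of h]
      exact (Real.exp_pos _).le
  refine h1.trans ?_
  rw [Ex_mul_left, Ex_prod_indep I T hT hd (fun i F => Real.exp (Y i F))
    (fun i hi F hF => by show Real.exp (Y i F) = Real.exp (Y i (F ∩ T i)); rw [← hY i hi F hF])]
  refine mul_le_mul_of_nonneg_left ?_ (Real.exp_pos _).le
  rw [← prod_const]
  exact prod_le_prod (fun i _ => Ex_nonneg hp fun F _ => (Real.exp_pos _).le) hM

/-- Chernoff bound on a grid: variables whose indices are congruent modulo `3` are independent. -/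
theorem chern9 {p : E → ℝ} (hp : Ok p) {S : Finset E} (n : ℕ) (T : ℕ × ℕ → Finset E)
    (hT : ∀ q, T q ⊆ S)
    (hd : ∀ q r : ℕ × ℕ, q ≠ r → q.1 % 3 = r.1 % 3 → q.2 % 3 = r.2 % 3 → Disjoint (T q) (T r))
    (Y : ℕ × ℕ → Finset E → ℝ) (hY : ∀ q, ∀ F, F ⊆ S → Y q F = Y q (F ∩ T q)) {M : ℝ}
    (hM1 : 1 ≤ M) (hM : ∀ q, Ex p S (fun F => Real.exp (Y q F)) ≤ M) (t : ℝ) :
    Pr p S (fun F => 9 * t ≤ ∑ q ∈ range n ×ˢ range n, Y q F) ≤
      9 * (Real.exp (-t) * M ^ (n * n)) := by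
  classical
  set G := range n ×ˢ range n with hG
  set K := range 3 ×ˢ range 3 with hK
  have hmap : ∀ q ∈ G, (q.1 % 3, q.2 % 3) ∈ K := by
    intro q _
    rw [hK, mem_product, mem_range, mem_range]
    exact ⟨Nat.mod_lt _ (by norm_num), Nat.mod_lt _ (by norm_num)⟩
  have hfib : ∀ F, ∑ q ∈ G, Y q F =
      ∑ c ∈ K, ∑ q ∈ G with (q.1 % 3, q.2 % 3) = c, Y q F := by
    intro F
    exact (sum_fiberwise_of_maps_to hmap _).symm
  have hcard : K.card = 9 := by rw [hK, card_product, card_range]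
  have h1 : Pr p S (fun F => 9 * t ≤ ∑ q ∈ G, Y q F) ≤
      Ex p S (fun F => ∑ c ∈ K, ind (t ≤ ∑ q ∈ G with (q.1 % 3, q.2 % 3) = c, Y q F)) := by
    unfold Pr
    refine Ex_mono hp fun F _ => ?_
    by_cases h : 9 * t ≤ ∑ q ∈ G, Y q F
    · rw [ind_of h]
      rw [hfib] at h
      obtain ⟨c, hc, hc2⟩ : ∃ c ∈ K, t ≤ ∑ q ∈ G with (q.1 % 3, q.2 % 3) = c, Y q F := by
        by_contra hcon
        push Not at hcon
        have h2 : ∑ c ∈ K, ∑ q ∈ G with (q.1 % 3, q.2 % 3) = c, Y q F < ∑ c ∈ K, t :=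
          sum_lt_sum_of_nonempty (card_pos.mp (by rw [hcard]; norm_num)) hcon
        rw [sum_const, hcard, nsmul_eq_mul] at h2
        push_cast at h2
        linarith
      calc (1:ℝ) = ind (t ≤ ∑ q ∈ G with (q.1 % 3, q.2 % 3) = c, Y q F) := (ind_of hc2).symm
        _ ≤ _ := single_le_sum (f := fun c => ind (t ≤ ∑ q ∈ G with (q.1 % 3, q.2 % 3) = c, Y q F))
          (fun c _ => ind_nonneg _) hc
    · rw [ind_not_of h]
      exact sum_nonneg fun c _ => ind_nonneg _
  refine h1.trans ?_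
  rw [Ex_sum]
  have h2 : ∀ c ∈ K, Ex p S (fun F => ind (t ≤ ∑ q ∈ G with (q.1 % 3, q.2 % 3) = c, Y q F)) ≤
      Real.exp (-t) * M ^ (n * n) := by
    intro c _
    have h3 := chern1 hp (G.filter (fun q => (q.1 % 3, q.2 % 3) = c)) T (fun i _ => hT i)
      (fun i hi j hj hij => by
        rw [mem_filter] at hi hj
        have e1 := hi.2.trans hj.2.symm
        rw [Prod.mk.injEq] at e1
        exact hd i j hij e1.1 e1.2) Y (fun i _ => hY i) (fun i _ => hM i) t
    refine h3.trans (mul_le_mul_of_nonneg_left ?_ (Real.exp_pos _).le)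
    refine pow_le_pow_right₀ hM1 ?_
    refine (card_filter_le _ _).trans ?_
    rw [hG, card_product, card_range]
  refine (sum_le_sum h2).trans ?_
  rw [sum_const, hcard, nsmul_eq_mul]
  push_cast
  exact le_refl _

/-- truncated exponential moment -/
theorem trunc {p : E → ℝ} (hp : Ok p) {S : Finset E} (Y : Finset E → ℝ) (hY : ∀ F, 0 ≤ Y F)
    {m v : ℝ} (hv : 0 < v) (hm : Ex p S Y ≤ m) :
    Ex p S (fun F => Real.exp (min (Y F) v / v)) ≤ Real.exp (2 * m / v) := by
  have h1 : ∀ y : ℝ, 0 ≤ y → y ≤ 1 → Real.exp y ≤ 1 + 2 * y := by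
    intro y h0 h1
    have h2 := Real.exp_bound' h0 h1 (n := 2) (by norm_num)
    simp [sum_range_succ, Nat.factorial] at h2
    nlinarith
  have h2 : Ex p S (fun F => Real.exp (min (Y F) v / v)) ≤ Ex p S (fun F => 1 + 2 / v * Y F) := by
    refine Ex_mono hp fun F _ => ?_
    have h3 : 0 ≤ min (Y F) v / v := div_nonneg (le_min (hY F) hv.le) hv.le
    have h4 : min (Y F) v / v ≤ 1 := by
      rw [div_le_one hv]; exact min_le_right _ _
    refine (h1 _ h3 h4).trans ?_
    have h5 : min (Y F) v / v ≤ Y F / v := div_le_div_of_nonneg_right (min_le_left _ _) hv.le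
    have h6 : 2 / v * Y F = 2 * (Y F / v) := by ring
    rw [h6]
    linarith
  refine h2.trans ?_
  rw [Ex_add, Ex_const, Ex_mul_left]
  have h7 : 2 / v * Ex p S Y ≤ 2 * m / v := by
    rw [div_mul_eq_mul_div]
    exact div_le_div_of_nonneg_right (by linarith) hv.le
  have h8 := Real.add_one_le_exp (2 * m / v)
  linarith

/-- exponential moment from an exponential tail -/
theorem expmom {p : E → ℝ} (hp : Ok p) {S : Finset E} (Y : Finset E → ℝ) (hY : ∀ F, 0 ≤ Y F)
    {u0 : ℝ} (h : ∀ u : ℝ, 0 ≤ u → Pr p S (fun F => u ≤ Y F) ≤ Real.exp (u0 - u)) (n : ℕ)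
    (hn : ∀ F, F ⊆ S → Y F ≤ n) :
    Ex p S (fun F => Real.exp (Y F / 2)) ≤
      Real.exp (u0 + 1 / 2) * (1 - Real.exp (-(1/2)))⁻¹ := by
  have h1 : Ex p S (fun F => Real.exp (Y F / 2)) ≤
      Ex p S (fun F => ∑ k ∈ range (n + 1), Real.exp (((k : ℝ) + 1) / 2) * ind ((k : ℝ) ≤ Y F)) := by
    refine Ex_mono hp fun F hF => ?_
    have h2 : ⌊Y F⌋₊ ∈ range (n + 1) := by
      rw [mem_range]
      have := Nat.floor_le_floor (hn F hF)
      rw [Nat.floor_natCast] at this
      omega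
    have h3 : ((⌊Y F⌋₊ : ℕ) : ℝ) ≤ Y F := Nat.floor_le (hY F)
    have h4 : Y F ≤ (⌊Y F⌋₊ : ℝ) + 1 := (Nat.lt_floor_add_one _).le
    calc Real.exp (Y F / 2) ≤ Real.exp (((⌊Y F⌋₊ : ℝ) + 1) / 2) *
          ind ((⌊Y F⌋₊ : ℝ) ≤ Y F) := by
          rw [ind_of h3, mul_one]
          exact Real.exp_le_exp.mpr (by linarith)
      _ ≤ _ := single_le_sum
          (f := fun k : ℕ => Real.exp (((k : ℝ) + 1) / 2) * ind ((k : ℝ) ≤ Y F))
          (fun k _ => mul_nonneg (Real.exp_pos _).le (ind_nonneg _)) h2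
  refine h1.trans ?_
  rw [Ex_sum]
  have h5 : ∀ k ∈ range (n + 1), Ex p S (fun F => Real.exp (((k : ℝ) + 1) / 2) *
      ind ((k : ℝ) ≤ Y F)) ≤ Real.exp (u0 + 1 / 2) * Real.exp (-(1/2)) ^ k := by
    intro k _
    rw [Ex_mul_left]
    have h6 := h k (Nat.cast_nonneg k)
    unfold Pr at h6
    calc _ ≤ Real.exp (((k : ℝ) + 1) / 2) * Real.exp (u0 - k) :=
          mul_le_mul_of_nonneg_left h6 (Real.exp_pos _).le
      _ = Real.exp (u0 + 1 / 2) * Real.exp (-(1/2)) ^ k := by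
          rw [← Real.exp_nat_mul, ← Real.exp_add, ← Real.exp_add]
          congr 1
          ring
  refine (sum_le_sum h5).trans ?_
  rw [← mul_sum]
  refine mul_le_mul_of_nonneg_left ?_ (Real.exp_pos _).le
  have h7 : Real.exp (-(1/2)) < 1 := by
    rw [Real.exp_lt_one_iff]; norm_num
  have h8 := (hasSum_geometric_of_lt_one (Real.exp_pos (-(1/2))).le h7)
  rw [← h8.tsum_eq]
  exact h8.summable.sum_le_tsum _ (fun k _ => pow_nonneg (Real.exp_pos _).le _)

end abs

end TH992.T
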