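import Pool.Agent.TH992.T.Tail2

/-!
The sharp tail.
-/

set_option autoImplicit false

namespace TH992.T

open H974 Finset Filter Topology

variable {a B C0 : ℝ} {p : Edg → ℝ} {S : Finset Edg} {x : ℕ → Vtx → Finset Edg → ℝ}

/-- the sharp tail bound -/
theorem tail1 (ha : 0 < a) (ha1 : a < 1) (B : ℝ) (hC0 : 0 ≤ C0) : ∃ l : ℝ, 0 < l ∧
    ∀ (p : Edg → ℝ) (S : Finset Edg) (x : ℕ → Vtx → Finset Edg → ℝ), Fam a B C0 p S x →
    ∀ (s : ℕ) (b c : ℤ) (u : ℝ), 1 ≤ s → 0 ≤ u →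
      Pr p S (fun F => u ≤ Yb a x s b c F) ≤ 9 * Real.exp (-(u / l) ^ (2 / a)) := by
  obtain ⟨u0, h0⟩ := tail0 (C0 := C0) ha ha1 B hC0
  obtain ⟨M, hM⟩ : ∃ M : ℝ, M = max (Real.exp (u0 + 1 / 2) * (1 - Real.exp (-(1/2)))⁻¹) 1 :=
    ⟨_, rfl⟩
  have hM1 : 1 ≤ M := by rw [hM]; exact le_max_right _ _
  have hM0 : 0 < M := by linarith
  obtain ⟨l, hl⟩ : ∃ l : ℝ, l = max (36 * (1 + 4 * Real.log M)) (max B 1) := ⟨_, rfl⟩
  have hl1 : 1 ≤ l := by rw [hl]; exact (le_max_right B 1).trans (le_max_right _ _)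
  have hlB : B ≤ l := by rw [hl]; exact (le_max_left B 1).trans (le_max_right _ _)
  have hlC : 36 * (1 + 4 * Real.log M) ≤ l := by rw [hl]; exact le_max_left _ _
  have hl0 : 0 < l := by linarith
  refine ⟨l, hl0, fun p S x h s b c u hs hu => ?_⟩
  rcases lt_or_ge u l with hlt | hlu
  · refine (Pr_le_one h.ok _ _).trans ?_
    have h1 : (u / l) ^ (2 / a) ≤ 1 := by
      refine Real.rpow_le_one (by positivity) ?_ (by positivity)
      rw [div_le_one hl0]; exact hlt.le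
    have h2 : Real.exp (-1) ≤ Real.exp (-(u / l) ^ (2 / a)) := Real.exp_le_exp.mpr (by linarith)
    have h3 : (1:ℝ) ≤ 9 * Real.exp (-1) := by
      have h4 : Real.exp 1 ≤ 9 := by
        have := Real.exp_one_lt_d9
        linarith
      rw [Real.exp_neg]
      rw [← div_eq_mul_inv, le_div_iff₀ (Real.exp_pos 1)]
      linarith
    linarith
  obtain ⟨K, hK1, hKe, hK2, hK3, hK4⟩ := choice ha ha1.le hl1 hlu
  rcases Nat.lt_or_ge s K with hlt | hge
  · have hz : Pr p S (fun F => u ≤ Yb a x s b c F) ≤ 0 := by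
      unfold Pr
      refine Ex_le_of_le h.ok fun F _ => ?_
      rw [ind_not_of (big h ha hl1 hlB hs (by rw [← hKe]; exact hlt) hu b c F)]
    exact hz.trans (by positivity)
  have hKr : (1 : ℝ) ≤ K := by exact_mod_cast hK1
  obtain ⟨r, hr⟩ : ∃ r : ℕ, r = s / K := ⟨_, rfl⟩
  obtain ⟨s1, s2, s3, s4⟩ := side hK1 hge
  rw [← hr] at s1 s2 s3 s4
  obtain ⟨G, hG⟩ : ∃ G : Finset (ℕ × ℕ), G = range (2 * K) ×ˢ range (2 * K) := ⟨_, rfl⟩
  obtain ⟨Y, hY⟩ : ∃ Y : ℕ × ℕ → Finset Edg → ℝ,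
    Y = fun q F => Yb a x r (b + q.1 * (r : ℕ)) (c + q.2 * (r : ℕ)) F := ⟨_, rfl⟩
  have hY0 : ∀ q F, 0 ≤ Y q F := fun q F => by rw [hY]; exact Yb_nonneg h _ _ _ _
  obtain ⟨t, ht⟩ : ∃ t : ℝ, t = l * (K * K) / 36 := ⟨_, rfl⟩
  have hP : Pr p S (fun F => u ≤ Yb a x s b c F) ≤
      Pr p S (fun F => 9 * t ≤ ∑ q ∈ G, Y q F / 2) := by
    unfold Pr
    refine Ex_mono h.ok fun F _ => ?_
    by_cases hF : u ≤ Yb a x s b c F
    · have h1 := Yb_sub h (by linarith) hK1 hge b c F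
      rw [← hr, ← hG] at h1
      have h2 : (l / 2) * (K * K) ≤ ∑ q ∈ G, Y q F := by
        rw [hY]
        refine hK4.trans (le_trans ?_ h1)
        exact mul_le_mul_of_nonneg_left hF (Real.rpow_nonneg (by linarith) _)
      have h3 : 9 * t ≤ ∑ q ∈ G, Y q F / 2 := by
        rw [← sum_div, ht]
        linarith
      rw [ind_of hF, ind_of h3]
    · rw [ind_not_of hF]
      exact ind_nonneg _
  have hB := chern9 h.ok (2 * K) (fun q => Tb S r (b + q.1 * (r : ℕ)) (c + q.2 * (r : ℕ)))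
      (fun q => inter_subset_right) (fun q q' hqq h1 h2 => Tb_disj s1 hqq h1 h2)
      (fun q F => Y q F / 2) (fun q F hF => by
        show Y q F / 2 = Y q (F ∩ _) / 2
        rw [hY]
        simp only [Yb]
        rw [← Nb_local h r _ _ F hF])
      (M := M) hM1
      (fun q => by
        refine (expmom h.ok (Y q) (hY0 q) (u0 := u0) (fun v hv => ?_) ⌈B * (r : ℝ) ^ a⌉₊
          (fun F _ => ?_)).trans (by rw [hM]; exact le_max_left _ _)
        · rw [hY]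
          exact h0 p S x h r _ _ v s1 hv
        · rw [hY]
          exact (Yb_le h s1 _ _ F).trans (Nat.le_ceil _)) t
  rw [← hG] at hB
  refine hP.trans (hB.trans (mul_le_mul_of_nonneg_left ?_ (by norm_num)))
  have e1 : M ^ (2 * K * (2 * K)) = Real.exp ((4 * ((K:ℝ) * K)) * Real.log M) := by
    have e2 : (4 * ((K:ℝ) * K)) * Real.log M = ((2 * K * (2 * K) : ℕ) : ℝ) * Real.log M := by
      push_cast; ring
    rw [e2, Real.exp_nat_mul, Real.exp_log hM0]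
  rw [e1, ← Real.exp_add]
  refine Real.exp_le_exp.mpr ?_
  have h5 : 36 * (1 + 4 * Real.log M) * ((K:ℝ) * K) ≤ l * (K * K) :=
    mul_le_mul_of_nonneg_right hlC (by positivity)
  rw [ht]
  linarith

end TH992.T
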