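import Pool.Agent.TH992.T.Low1

/-!
Teeth: many open crossings from the wired side and many closed dual crossings to the other side.
-/

set_option autoImplicit false

namespace TH992.T

open H974 Finset H342P H984P H984N

/-- the lowest row of a period -/
def ys (a i : ℕ) : ℤ := ((40 * a * i + 5 * a : ℕ) : ℤ)

theorem ys_le {a i j : ℕ} (h : i ≤ j) : ys a i ≤ ys a j := by
  unfold ys
  have h1 : 40 * a * i ≤ 40 * a * j := Nat.mul_le_mul_left _ h
  have h2 : 40 * a * i + 5 * a ≤ 40 * a * j + 5 * a := by omega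
  exact_mod_cast h2

theorem ys_lt {a i j : ℕ} (h : i < j) : ys a i + 40 * a ≤ ys a j := by
  unfold ys
  have h1 : 40 * a * (i + 1) ≤ 40 * a * j := Nat.mul_le_mul_left _ h
  have h2 : 40 * a * (i + 1) = 40 * a * i + 40 * a := by ring
  omega

theorem ys_ge (a i : ℕ) : 5 * (a : ℤ) ≤ ys a i := by
  unfold ys
  push_cast
  have : (0 : ℤ) ≤ 40 * (a : ℤ) * i := by positivity
  linarith

/-- open crossings -/
def TA (D : Dm) (a I : ℕ) (F : Finset Edg) : Prop :=
  ∀ i < I, LRc D.l D.r (ys a i) (ys a i + 4 * a) F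

/-- closed dual crossings -/
def TB (D : Dm) (a I : ℕ) (F : Finset Edg) : Prop :=
  ∀ i < I, LRc D.l D.r (ys a i + 16 * a) (ys a i + 16 * a + 4 * a) (dmp (D.edges \ F))

/-- the height is sufficient -/
def Hgt (D : Dm) (a I : ℕ) : Prop := ∀ i < I, ys a i + 30 * a ≤ D.h

/-- the edges of the open crossings -/
noncomputable def E1 (D : Dm) (a I : ℕ) : Finset Edg :=
  (range I).biUnion (fun i => LRE D.l D.r (ys a i) (ys a i + 4 * a))

/-- the edges of the dual crossings -/
noncomputable def E2 (D : Dm) (a I : ℕ) : Finset Edg :=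
  (range I).biUnion (fun i =>
    (LRE D.l D.r (ys a i + 16 * a) (ys a i + 16 * a + 4 * a)).map dl.symm.toEmbedding)

theorem mem_E1 {D : Dm} {a I : ℕ} {e : Edg} :
    e ∈ E1 D a I ↔ ∃ i < I, e ∈ LRE D.l D.r (ys a i) (ys a i + 4 * a) := by
  unfold E1
  simp only [mem_biUnion, mem_range]

theorem mem_E2 {D : Dm} {a I : ℕ} {e : Edg} :
    e ∈ E2 D a I ↔ ∃ i < I, dl e ∈ LRE D.l D.r (ys a i + 16 * a) (ys a i + 16 * a + 4 * a) := by
  unfold E2
  simp only [mem_biUnion, mem_range, mem_map, Equiv.coe_toEmbedding]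
  constructor
  · rintro ⟨i, hi, e', he', rfl⟩
    exact ⟨i, hi, by simpa using he'⟩
  · rintro ⟨i, hi, he⟩
    exact ⟨i, hi, dl e, he, by simp⟩

theorem E1_sub {D : Dm} {a I : ℕ} (hH : Hgt D a I) : E1 D a I ⊆ D.edges := by
  intro e he
  obtain ⟨i, hi, he⟩ := mem_E1.mp he
  have h1 := hH i hi
  have h2 := ys_ge a i
  unfold Dm.edges
  obtain ⟨x, y, _ | _⟩ := e
  · rw [mem_LRE_false] at he
    rw [mem_RE_false]; omega
  · rw [mem_LRE_true] at he
    rw [mem_RE_true]; omega

theorem E2_sub {D : Dm} {a I : ℕ} (ha : 1 ≤ a) (hH : Hgt D a I) : E2 D a I ⊆ D.edges := by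
  intro e he
  obtain ⟨i, hi, he⟩ := mem_E2.mp he
  have h1 := hH i hi
  have h2 := ys_ge a i
  unfold Dm.edges
  obtain ⟨x, y, _ | _⟩ := e
  · rw [dl_f, mem_LRE_true] at he
    rw [mem_RE_false]; omega
  · rw [dl_t, mem_LRE_false] at he
    rw [mem_RE_true]; omega

theorem E12_disj {D : Dm} {a I : ℕ} (_ : 1 ≤ a) : Disjoint (E1 D a I) (E2 D a I) := by
  rw [disjoint_left]
  intro e h1 h2
  obtain ⟨i, hi, he⟩ := mem_E1.mp h1
  obtain ⟨j, hj, he'⟩ := mem_E2.mp h2
  rcases Nat.lt_or_ge j i with h | h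
  · have h3 := ys_lt (a := a) h
    obtain ⟨x, y, _ | _⟩ := e
    · rw [mem_LRE_false] at he
      rw [dl_f, mem_LRE_true] at he'
      omega
    · rw [mem_LRE_true] at he
      rw [dl_t, mem_LRE_false] at he'
      omega
  · have h3 := ys_le (a := a) h
    obtain ⟨x, y, _ | _⟩ := e
    · rw [mem_LRE_false] at he
      rw [dl_f, mem_LRE_true] at he'
      omega
    · rw [mem_LRE_true] at he
      rw [dl_t, mem_LRE_false] at he'
      omega

theorem TA_local {D : Dm} {a I : ℕ} (F : Finset Edg) : TA D a I F ↔ TA D a I (F ∩ E1 D a I) := by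
  unfold TA
  refine forall_congr' fun i => forall_congr' fun hi => ?_
  refine LRc_local ?_
  intro e he
  exact mem_E1.mpr ⟨i, hi, he⟩

theorem TB_mono {D : Dm} {a I : ℕ} {F G : Finset Edg} (h : F ⊆ G) (hG : TB D a I G) :
    TB D a I F := by
  intro i hi
  refine (hG i hi).mono ?_
  intro e he
  rw [mem_dmp, mem_sdiff] at he ⊢
  exact ⟨he.1, fun h' => he.2 (h h')⟩

theorem TB_local {D : Dm} {a I : ℕ} (F : Finset Edg) : TB D a I F ↔ TB D a I (F ∩ E2 D a I) := by
  constructor
  · intro h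
    exact TB_mono inter_subset_left h
  · intro h i hi
    obtain ⟨y, y', h1, h2, h3⟩ := h i hi
    refine ⟨y, y', h1, h2, h3.mono ?_⟩
    rintro e ⟨he1, he2⟩
    refine ⟨?_, he2⟩
    rw [mem_coe, mem_dmp, mem_sdiff] at he1 ⊢
    refine ⟨he1.1, fun h' => he1.2 (mem_inter.mpr ⟨h', mem_E2.mpr ⟨i, hi, ?_⟩⟩)⟩
    rw [Equiv.apply_symm_apply]
    exact he2

/-- The vertex is in the middle of a period. -/
structure Mid (D : Dm) (a I : ℕ) (v : Vtx) : Prop where
  left : D.l + 13 * a ≤ v.1
  right : v.1 ≤ D.r - 13 * a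
  row : ∃ i < I, ys a i + 8 * a ≤ v.2 ∧ v.2 ≤ ys a i + 12 * a

theorem RA_signed {D : Dm} {a I : ℕ} (_ : 1 ≤ a) {v : Vtx} (hv : Mid D a I v)
    {F G : Finset Edg} (h0 : F \ (E1 D a I ∪ E2 D a I) = G \ (E1 D a I ∪ E2 D a I))
    (h1 : F ∩ E1 D a I ⊆ G ∩ E1 D a I) (h2 : G ∩ E2 D a I ⊆ F ∩ E2 D a I)
    (h : RA v a (↑F)) : RA v a (↑G) := by
  obtain ⟨i, hi, hr1, hr2⟩ := hv.row
  obtain ⟨⟨w, hw, h3⟩, g, hg, h4⟩ := h
  refine ⟨⟨w, hw, h3.mono ?_⟩, g, hg, h4.mono ?_⟩
  · rintro e ⟨he1, he2⟩
    refine ⟨?_, he2⟩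
    rw [mem_coe] at he1 he2 ⊢
    by_cases hc1 : e ∈ E1 D a I
    · exact (mem_inter.mp (h1 (mem_inter.mpr ⟨he1, hc1⟩))).1
    · have hc2 : e ∉ E2 D a I := by
        intro hc
        obtain ⟨j, hj, he3⟩ := mem_E2.mp hc
        unfold PR at he2
        rcases Nat.lt_or_ge j i with h | h
        · have h5 := ys_lt (a := a) h
          obtain ⟨x, y, _ | _⟩ := e
          · rw [mem_RE_false] at he2
            rw [dl_f, mem_LRE_true] at he3
            omega
          · rw [mem_RE_true] at he2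
            rw [dl_t, mem_LRE_false] at he3
            omega
        · have h5 := ys_le (a := a) h
          obtain ⟨x, y, _ | _⟩ := e
          · rw [mem_RE_false] at he2
            rw [dl_f, mem_LRE_true] at he3
            omega
          · rw [mem_RE_true] at he2
            rw [dl_t, mem_LRE_false] at he3
            omega
      have h5 : e ∈ F \ (E1 D a I ∪ E2 D a I) := by
        rw [mem_sdiff, mem_union]; exact ⟨he1, fun hc => hc.elim hc1 hc2⟩
      rw [h0] at h5
      exact (mem_sdiff.mp h5).1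
  · rintro e ⟨he1, he2⟩
    refine ⟨he1, fun heG => he2 ?_⟩
    rw [mem_coe] at heG ⊢
    by_cases hc2 : e ∈ E2 D a I
    · exact (mem_inter.mp (h2 (mem_inter.mpr ⟨heG, hc2⟩))).1
    · have hc1 : e ∉ E1 D a I := by
        intro hc
        obtain ⟨j, hj, he3⟩ := mem_E1.mp hc
        simp only [dE, DR, Set.mem_ofPred_eq] at he1
        rcases le_or_gt j i with h | h
        · have h5 := ys_le (a := a) h
          obtain ⟨x, y, _ | _⟩ := e
          · rw [dl_f, mem_RE_true] at he1
            rw [mem_LRE_false] at he3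
            omega
          · rw [dl_t, mem_RE_false] at he1
            rw [mem_LRE_true] at he3
            omega
        · have h5 := ys_lt (a := a) h
          obtain ⟨x, y, _ | _⟩ := e
          · rw [dl_f, mem_RE_true] at he1
            rw [mem_LRE_false] at he3
            omega
          · rw [dl_t, mem_RE_false] at he1
            rw [mem_LRE_true] at he3
            omega
      have h5 : e ∈ G \ (E1 D a I ∪ E2 D a I) := by
        rw [mem_sdiff, mem_union]; exact ⟨heG, fun hc => hc.elim hc1 hc2⟩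
      rw [← h0] at h5
      exact (mem_sdiff.mp h5).1

/-- correlation inequality -/
theorem teeth_harris {D : Dm} {a I : ℕ} (ha : 1 ≤ a) (hH : Hgt D a I) {v : Vtx}
    (hv : Mid D a I v) :
    P D.edges (fun F => RA v a (↑F)) * (P D.edges (TA D a I) * P D.edges (TB D a I)) ≤
      P D.edges (fun F => RA v a (↑F) ∧ (TA D a I F ∧ TB D a I F)) := by
  refine harris_signed two_ok (E1_sub hH) (E2_sub ha hH) (E12_disj ha)
    (fun F _ => TA_local F) (fun F G h hF i hi => (hF i hi).mono h) (fun F _ => TB_local F)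
    (fun F G h hG => TB_mono h hG) (fun F G _ _ h0 h1 h2 h => RA_signed ha hv h0 h1 h2 h)

/-- the two-arm event in the middle of a period -/
theorem ra_ge {c : ℝ} (hL : LowA c (1/4)) {D : Dm} {a I : ℕ} (ha : 1 ≤ a) (hH : Hgt D a I)
    {v : Vtx} (hv : Mid D a I v) :
    c * (a:ℝ) ^ (-(1/4) : ℝ) ≤ P D.edges (fun F => RA v a (↑F)) := by
  obtain ⟨i, hi, hr1, hr2⟩ := hv.row
  have h1 := hv.left
  have h2 := hv.right
  have h3 := hH i hi
  have h4 := ys_ge a i
  have hB : BA v a ⊆ D.edges := by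
    unfold BA Dm.edges
    rintro ⟨x, y, b⟩ he
    cases b
    · rw [mem_RE_false] at he ⊢
      have h5 : (1 : ℤ) ≤ a := by exact_mod_cast ha
      omega
    · rw [mem_RE_true] at he ⊢
      have h5 : (1 : ℤ) ≤ a := by exact_mod_cast ha
      omega
  have hv' : v ∈ ctr v a := by rw [mem_ctr]; omega
  have e := pr_ra_ge hL ha hv'
  rw [pr_ra_local (BA_sub_NB ha hv')] at e
  unfold P
  rw [pr_ra_local hB]
  exact e

theorem ys_nat (a i : ℕ) : ys a i = 40 * a * i + 5 * a := by unfold ys; push_cast; rfl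

/-- the mid vertices with two arms are visited if there are teeth -/
theorem vis_teeth {D : Dm} (hD : D.Ok) {a I : ℕ} (ha : 1 ≤ a) (hH : Hgt D a I) {v : Vtx}
    (hv : Mid D a I v) {F : Finset Edg} (hF : F ⊆ D.edges) (hRA : RA v a (↑F))
    (hTA : TA D a I F) (hTB : TB D a I F) : D.Vis F (v, .ne) := by
  obtain ⟨i, hi, hr1, hr2⟩ := hv.row
  have hl := hv.left
  have hr := hv.right
  have hh := hH i hi
  have hy := ys_ge a i
  have ha' : (1 : ℤ) ≤ a := by exact_mod_cast ha
  obtain ⟨⟨w, hw, hRw⟩, g, hg, hDg⟩ := hRA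
  obtain ⟨v1, v2⟩ := v
  simp only at hl hr hr1 hr2 hw hg
  apply vis_of hD hF
  · -- the open arm
    obtain ⟨y1, y2, hy1, hy2, hc⟩ := hTA i hi
    have e1 : Reach ((↑F : Set Edg) ∩ ↑D.edges) w (D.l, y1) := by
      refine meet_gen (p := v1 - 12 * a) (q := v1 + 12 * a) (c := ys a i) (d := ys a i + 4 * a)
        (by omega) (by omega) (V := PR (v1, v2) a)
        (Hh := LRE D.l D.r (ys a i) (ys a i + 4 * a)) ?_ ?_ ?_ ?_ ?_ ?_ ?_
        hRw.symm (by omega) (by simp only; omega) hc (by simp only; omega) (by simp only; omega)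
      · rintro ⟨x, y, _ | _⟩ h
        · simp only [PR, Dm.edges, mem_RE_false] at h ⊢; omega
        · simp only [PR, Dm.edges, mem_RE_true] at h ⊢; omega
      · rintro ⟨x, y, _ | _⟩ h
        · simp only [Dm.edges, mem_RE_false, mem_LRE_false] at h ⊢; omega
        · simp only [Dm.edges, mem_RE_true, mem_LRE_true] at h ⊢; omega
      · rintro ⟨x, y, _ | _⟩ h
        · simp only [Dm.edges, mem_RE_false] at h ⊢; omega
        · simp only [Dm.edges, mem_RE_true] at h ⊢; omega
      · intro x y h; simp only [PR, mem_RE_false] at h; omega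
      · intro x y h; simp only [PR, mem_RE_true] at h; omega
      · intro x y h; simp only [mem_LRE_true] at h; omega
      · intro x y h; simp only [mem_LRE_false] at h; omega
    have hmono : ∀ {X : Set Edg} {u u' : Vtx}, Reach ((↑F : Set Edg) ∩ X) u u' →
        Reach (D.cfg F) u u' := fun h => h.mono (fun e he => Or.inl he.1)
    have e2 := clu_bottom (D := D) F (-D.l).toNat (by have := hD.l_neg; omega)
    have e3 := clu_left (D := D) F y1.toNat (by omega)
    rw [show -(((-D.l).toNat : ℕ) : ℤ) = D.l by have := hD.l_neg; omega] at e2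
    rw [show ((y1.toNat : ℕ) : ℤ) = y1 by omega] at e3
    exact ((e2.trans e3).trans (hmono e1).symm).trans (hmono hRw).symm
  · -- the dual arm
    obtain ⟨y1, y2, hy1, hy2, hc⟩ := hTB i hi
    obtain ⟨F', hF'⟩ : ∃ F' : Finset Edg, F' = dmp (D.edges \ F) := ⟨_, rfl⟩
    rw [← hF'] at hc
    have a1 : Reach ((↑F' : Set Edg) ∩ ↑(DR (v1, v2) a)) (v1, v2) g := by
      refine (reach_dl.mpr hDg).mono ?_
      rintro _ ⟨e, ⟨he1, he2⟩, rfl⟩
      refine ⟨?_, he1⟩
      rw [hF', mem_coe, mem_dmp, Equiv.symm_apply_apply, mem_sdiff]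
      refine ⟨?_, he2⟩
      obtain ⟨x, y, _ | _⟩ := e
      · simp only [dE, DR, Set.mem_ofPred_eq, dl_f, mem_RE_true] at he1
        simp only [Dm.edges, mem_RE_false]; omega
      · simp only [dE, DR, Set.mem_ofPred_eq, dl_t, mem_RE_false] at he1
        simp only [Dm.edges, mem_RE_true]; omega
    obtain ⟨S', hS'⟩ : ∃ S' : Finset Edg, S' = RE D.l D.r 1 (D.h - 2) := ⟨_, rfl⟩
    have e1 : Reach ((↑F' : Set Edg) ∩ ↑S') (v1, v2) (D.l, y1) := by
      refine meet_gen (p := v1 - 12 * a) (q := v1 + 12 * a) (c := ys a i + 16 * a)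
        (d := ys a i + 16 * a + 4 * a)
        (by omega) (by omega) (V := DR (v1, v2) a)
        (Hh := LRE D.l D.r (ys a i + 16 * a) (ys a i + 16 * a + 4 * a)) ?_ ?_ ?_ ?_ ?_ ?_ ?_
        a1 (by simp only; omega) (by omega) hc (by simp only; omega) (by simp only; omega)
      · rintro ⟨x, y, _ | _⟩ h
        · simp only [DR, hS', mem_RE_false] at h ⊢; omega
        · simp only [DR, hS', mem_RE_true] at h ⊢; omega
      · rintro ⟨x, y, _ | _⟩ h
        · simp only [hS', mem_RE_false, mem_LRE_false] at h ⊢; omega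
        · simp only [hS', mem_RE_true, mem_LRE_true] at h ⊢; omega
      · rintro ⟨x, y, _ | _⟩ h
        · simp only [hS', mem_RE_false] at h ⊢; omega
        · simp only [hS', mem_RE_true] at h ⊢; omega
      · intro x y h; simp only [DR, mem_RE_false] at h; omega
      · intro x y h; simp only [DR, mem_RE_true] at h; omega
      · intro x y h; simp only [mem_LRE_true] at h; omega
      · intro x y h; simp only [mem_LRE_false] at h; omega
    have e2 : Reach ((↑F' : Set Edg) ∩ ↑S') (D.l, y1) (D.r, y2) := by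
      refine hc.mono ?_
      rintro ⟨x, y, _ | _⟩ ⟨h0, h⟩
      · refine ⟨h0, ?_⟩
        simp only [hS', mem_coe, mem_RE_false, mem_LRE_false] at h ⊢; omega
      · refine ⟨h0, ?_⟩
        simp only [hS', mem_coe, mem_RE_true, mem_LRE_true] at h ⊢; omega
    have e3 : DReach (↑D.edges \ D.cfg F : Set Edg) (v1, v2) (D.r, y2) := by
      rw [← reach_dl]
      refine (e1.trans e2).mono ?_
      rintro e ⟨h1, h2⟩
      refine ⟨dl.symm e, ?_, by simp⟩
      rw [hF', mem_coe, mem_dmp, mem_sdiff] at h1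
      refine ⟨h1.1, ?_⟩
      rintro (h3 | h3)
      · exact h1.2 h3
      · rw [hS', mem_coe] at h2
        unfold Dm.wir at h3
        simp only [Set.mem_ofPred_eq] at h3
        obtain ⟨x, y, _ | _⟩ := e
        · rw [mem_RE_false] at h2
          simp only [dls_f] at h3
          rcases h3 with h3 | h3 | h3
          · omega
          · exact absurd h3.1 (by decide)
          · omega
        · rw [mem_RE_true] at h2
          simp only [dls_t] at h3
          rcases h3 with h3 | h3 | h3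
          · exact absurd h3.1 (by decide)
          · omega
          · exact absurd h3.1 (by decide)
    refine ⟨(D.r, y2), Or.inr (Or.inl ⟨rfl, ?_, ?_⟩), e3.symm⟩
    · simp only; omega
    · simp only; omega
  · unfold Out
    rw [face_ne]
    simp only
    omega

end TH992.T
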