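import Pool.Agent.TH992.T.Low4
import Pool.Agent.H984R4.NP.Limit

/-!
Tails of the duration of the exploration path.
-/

set_option autoImplicit false

namespace TH992.T

open H974 Finset H342P H984P H984N MeasureTheory Filter Topology

/-- the number of steps is at most the number of states -/
theorem len_max {D : Dm} (hD : D.Ok) {F : Finset Edg} (hF : F ⊆ D.edges) {n : ℝ} (hn : 1 ≤ n)
    (h1 : ((D.r - D.l : ℤ) : ℝ) ≤ n) (h2 : (D.h : ℝ) ≤ n) : (D.len F : ℝ) ≤ 16 * n ^ 2 := by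
  have e := Moments_sum hD hF (fun _ => (1 : ℝ))
  simp only [sum_const, card_range, nsmul_eq_mul, mul_one] at e
  have h3 : ∑ σ ∈ D.states, ind (D.Vis F σ) ≤ (D.states.card : ℝ) := by
    rw [← nsmul_one, ← sum_const]
    exact sum_le_sum fun σ _ => ind_le_one _
  have h4 : (D.states.card : ℝ) = ((D.r : ℝ) + 1 - D.l) * (D.h + 1) * 4 := by
    unfold Dm.states
    rw [card_product, card_product, card_univ, Moments_card, Int.card_Icc, Int.card_Icc]
    push_cast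
    have g1 : (((D.r + 1 - D.l).toNat : ℕ) : ℝ) = (D.r : ℝ) + 1 - D.l := by
      have : (((D.r + 1 - D.l).toNat : ℕ) : ℤ) = D.r + 1 - D.l := by
        have := hD.l_neg; have := hD.r_pos; omega
      exact_mod_cast this
    have g2 : (((D.h + 1 - 0).toNat : ℕ) : ℝ) = (D.h : ℝ) + 1 := by
      have : (((D.h + 1 - 0).toNat : ℕ) : ℤ) = D.h + 1 := by
        have := hD.h_pos; omega
      exact_mod_cast this
    rw [g1, g2]
  rw [← e, h4] at h3
  push_cast at h3 h1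
  have g3 : (0 : ℝ) ≤ (D.h : ℝ) + 1 := by
    have : (0 : ℝ) ≤ D.h := by exact_mod_cast hD.h_pos.le
    linarith
  have h5 : ((D.r : ℝ) + 1 - D.l) * (D.h + 1) ≤ (2 * n) * (2 * n) :=
    mul_le_mul (by linarith) (by linarith) g3 (by linarith)
  nlinarith

/-- scaling of the mesh -/
theorem mesh_pow {S δ : ℝ} (hS : 0 < S) (hδ : 0 < δ) (b : ℝ) :
    (S / δ) ^ b = S ^ b * δ ^ (-b) := by
  rw [Real.div_rpow hS.le hδ.le, Real.rpow_neg hδ.le, div_eq_mul_inv]

theorem final_of {c : ℝ} (hc : 0 < c) (hL : LowA c (1/4)) {C : ℝ} (hC : 0 < C)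
    (hU : TwoUp C (1/4)) {C2 : ℝ} (hC2 : 0 < C2) (hA : AnnUp C2) (R : Rect) :
    ∃ c C δ0 : ℝ, 0 < c ∧ 0 < C ∧ 0 < δ0 ∧
      (∀ δ : ℝ, 0 < δ → δ ≤ δ0 →
        (∀ F : Finset Edg, F ⊆ (R.dm δ).edges → R.time δ F ≤ C * δ ^ (-(1/4) : ℝ)) ∧
        (∀ x : ℝ, 0 ≤ x → R.prob δ (fun F => x ≤ R.time δ F) ≤ C * Real.exp (-(c * x ^ 8))) ∧
        ∀ x : ℝ, 1 ≤ x → x ≤ c * δ ^ (-(1/4) : ℝ) →
          Real.exp (-(C * x ^ 8)) ≤ R.prob δ (fun F => x ≤ R.time δ F)) := by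
  obtain ⟨κ, S, δ1, hκ, hS, hδ1, -, hsh⟩ := R.shape
  obtain ⟨l, hl, hup⟩ := len_tail hC hU
  obtain ⟨c2, K2, hc2, hK2, hlow⟩ := len_tail_low hc hL hC hU hC2 hA hκ
  obtain ⟨T, hT⟩ : ∃ T : ℝ, T = S ^ (7/4 : ℝ) := ⟨_, rfl⟩
  have hT0 : 0 < T := by rw [hT]; positivity
  obtain ⟨B, hB⟩ : ∃ B : ℝ, B = 1 / T + 1 := ⟨_, rfl⟩
  have hB1 : 1 ≤ B := by rw [hB]; have : 0 < 1 / T := by positivity
                         linarith
  have hB0 : 0 < B := by linarith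
  obtain ⟨cc, hcc⟩ : ∃ cc : ℝ, cc = min ((1 / (T * l)) ^ 8) (c2 * S ^ (1/4 : ℝ) / B) := ⟨_, rfl⟩
  have hcc0 : 0 < cc := by rw [hcc]; exact lt_min (by positivity) (by positivity)
  obtain ⟨CC, hCC⟩ : ∃ CC : ℝ, CC = max (16 * S ^ 2) (max 9 (K2 * B ^ 8)) := ⟨_, rfl⟩
  have hCC0 : 0 < CC := by
    rw [hCC]; exact lt_of_lt_of_le (by norm_num) ((le_max_left 9 _).trans (le_max_right _ _))
  have hCC1 : 16 * S ^ 2 ≤ CC := by rw [hCC]; exact le_max_left _ _
  have hCC2 : 9 ≤ CC := by rw [hCC]; exact (le_max_left 9 _).trans (le_max_right _ _)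
  have hCC3 : K2 * B ^ 8 ≤ CC := by rw [hCC]; exact (le_max_right 9 _).trans (le_max_right _ _)
  refine ⟨cc, CC, min δ1 S, hcc0, hCC0, lt_min hδ1 hS, fun δ hδ hδ' => ?_⟩
  have hsh' := hsh δ hδ (hδ'.trans (min_le_left _ _))
  obtain ⟨n, hn⟩ : ∃ n : ℝ, n = S / δ := ⟨_, rfl⟩
  rw [← hn] at hsh'
  have hn1 : 1 ≤ n := by
    rw [hn, le_div_iff₀ hδ, one_mul]
    exact hδ'.trans (min_le_right _ _)
  have hn0 : 0 < n := by linarith
  have hD := hsh'.ok
  have hw := hsh'.w_le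
  have hh := hsh'.h_le
  have hd : 0 < δ ^ (7/4 : ℝ) := Real.rpow_pos_of_pos hδ _
  have e1 : n ^ (7/4 : ℝ) = T * δ ^ (-(7/4) : ℝ) := by rw [hn, hT, mesh_pow hS hδ]
  have e2 : δ ^ (7/4 : ℝ) * δ ^ (-(7/4) : ℝ) = 1 := by
    rw [← Real.rpow_add hδ]; norm_num
  refine ⟨fun F hF => ?_, fun x hx => ?_, fun x hx hxc => ?_⟩
  · unfold Rect.time
    have h1 := len_max hD hF hn1 hw hh
    have e3 : n ^ 2 = S ^ 2 * δ ^ (-2 : ℝ) := by
      rw [hn, div_pow, Real.rpow_neg hδ.le, Real.rpow_two, div_eq_mul_inv]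
    calc δ ^ (7/4 : ℝ) * ((R.dm δ).len F : ℝ) ≤ δ ^ (7/4 : ℝ) * (16 * n ^ 2) :=
          mul_le_mul_of_nonneg_left h1 hd.le
      _ = (16 * S ^ 2) * (δ ^ (7/4 : ℝ) * δ ^ (-2 : ℝ)) := by rw [e3]; ring
      _ = (16 * S ^ 2) * δ ^ (-(1/4) : ℝ) := by
          rw [← Real.rpow_add hδ]; norm_num
      _ ≤ CC * δ ^ (-(1/4) : ℝ) :=
          mul_le_mul_of_nonneg_right hCC1 (Real.rpow_nonneg hδ.le _)
  · have h1 := hup (R.dm δ) n hD hn1 hw hh (x / T) (by positivity)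
    have h2 : R.prob δ (fun F => x ≤ R.time δ F) ≤
        P (R.dm δ).edges (fun F => x / T * n ^ (7/4 : ℝ) ≤ ((R.dm δ).len F : ℝ)) := by
      refine Pr_mono two_ok fun F _ hF => ?_
      unfold Rect.time at hF
      have e3 : x / T * n ^ (7/4 : ℝ) = x * δ ^ (-(7/4) : ℝ) := by rw [e1]; field_simp
      rw [e3]
      have h3 := mul_le_mul_of_nonneg_right hF (Real.rpow_nonneg hδ.le (-(7/4) : ℝ))
      have e4 : δ ^ (7/4 : ℝ) * ((R.dm δ).len F : ℝ) * δ ^ (-(7/4) : ℝ) =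
          (δ ^ (7/4 : ℝ) * δ ^ (-(7/4) : ℝ)) * ((R.dm δ).len F : ℝ) := by ring
      rw [e4, e2, one_mul] at h3
      exact h3
    refine h2.trans (h1.trans ?_)
    have h3 : cc * x ^ 8 ≤ (x / T / l) ^ 8 := by
      have e3 : (x / T / l) ^ 8 = (1 / (T * l)) ^ 8 * x ^ 8 := by
        rw [← mul_pow]; congr 1; field_simp
      rw [e3]
      refine mul_le_mul_of_nonneg_right ?_ (by positivity)
      rw [hcc]; exact min_le_left _ _
    exact mul_le_mul hCC2 (Real.exp_le_exp.mpr (by linarith)) (Real.exp_pos _).le hCC0.le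
  · have hBx : 1 ≤ B * x := by nlinarith
    have h0 : B * x ≤ c2 * n ^ (1/4 : ℝ) := by
      have h1 : cc ≤ c2 * S ^ (1/4 : ℝ) / B := by rw [hcc]; exact min_le_right _ _
      have h2 : x ≤ c2 * S ^ (1/4 : ℝ) / B * δ ^ (-(1/4) : ℝ) :=
        hxc.trans (mul_le_mul_of_nonneg_right h1 (Real.rpow_nonneg hδ.le _))
      rw [hn, mesh_pow hS hδ]
      calc B * x ≤ B * (c2 * S ^ (1/4 : ℝ) / B * δ ^ (-(1/4) : ℝ)) :=
            mul_le_mul_of_nonneg_left h2 hB0.le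
        _ = c2 * (S ^ (1/4 : ℝ) * δ ^ (-(1/4) : ℝ)) := by field_simp
    have h1 := hlow (R.dm δ) n hsh' hn0 (B * x) hBx h0
    refine le_trans ?_ (h1.trans (Pr_mono two_ok fun F _ hF => ?_))
    · refine Real.exp_le_exp.mpr ?_
      have h2 : K2 * (B * x) ^ 8 = (K2 * B ^ 8) * x ^ 8 := by rw [mul_pow]; ring
      have h3 : (K2 * B ^ 8) * x ^ 8 ≤ CC * x ^ 8 :=
        mul_le_mul_of_nonneg_right hCC3 (by positivity)
      rw [h2]
      linarith
    · unfold Rect.time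
      have h2 : x * δ ^ (-(7/4) : ℝ) ≤ ((R.dm δ).len F : ℝ) := by
        refine le_trans ?_ hF
        rw [e1]
        have h3 : x ≤ B * x * T := by
          have : B * T = 1 + T := by rw [hB]; field_simp
          nlinarith
        calc x * δ ^ (-(7/4) : ℝ) ≤ (B * x * T) * δ ^ (-(7/4) : ℝ) :=
              mul_le_mul_of_nonneg_right h3 (Real.rpow_nonneg hδ.le _)
          _ = _ := by ring
      have h3 := mul_le_mul_of_nonneg_left h2 hd.le
      have e3 : δ ^ (7/4 : ℝ) * (x * δ ^ (-(7/4) : ℝ)) =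
          (δ ^ (7/4 : ℝ) * δ ^ (-(7/4) : ℝ)) * x := by ring
      rw [e3, e2, one_mul] at h3
      exact h3

/-- the weak limits -/
theorem final_lim {R : Rect} {c C δ0 : ℝ} (hc : 0 < c) (hδ0 : 0 < δ0)
    (h : ∀ δ : ℝ, 0 < δ → δ ≤ δ0 →
        (∀ x : ℝ, 0 ≤ x → R.prob δ (fun F => x ≤ R.time δ F) ≤ C * Real.exp (-(c * x ^ 8))) ∧
        ∀ x : ℝ, 1 ≤ x → x ≤ c * δ ^ (-(1/4) : ℝ) →
          Real.exp (-(C * x ^ 8)) ≤ R.prob δ (fun F => x ≤ R.time δ F))
    {δ : ℕ → ℝ} (hδ : ∀ i, 0 < δ i) (hlim : Tendsto δ atTop (𝓝 0))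
    {μ : ProbabilityMeasure X} (hμ : Tendsto (fun i => R.law (δ i)) atTop (𝓝 μ))
    {x : ℝ} (hx : 1 ≤ x) :
    ENNReal.ofReal (Real.exp (-(C * x ^ 8))) ≤ (μ : Measure X) {p | x ≤ p.2} ∧
      (μ : Measure X) {p | x ≤ p.2} ≤ ENNReal.ofReal (C * Real.exp (-(c / 256 * x ^ 8))) := by
  have hx0 : 0 < x := by linarith
  constructor
  · have hG : IsClosed {p : X | x ≤ p.2} := isClosed_le continuous_const continuous_snd
    have h1 := ProbabilityMeasure.limsup_measure_closed_le_of_tendsto hμ hG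
    refine le_trans ?_ h1
    have hev : ∀ᶠ i in atTop, x ≤ c * δ i ^ (-(1/4) : ℝ) := by
      have ht : Tendsto (fun i => c * δ i ^ (-(1/4) : ℝ)) atTop atTop := by
        refine Tendsto.const_mul_atTop hc ?_
        have h2 : Tendsto (fun y : ℝ => y ^ (-(1/4) : ℝ)) (𝓝[>] 0) atTop :=
          tendsto_rpow_neg_nhdsGT_zero (by norm_num)
        exact h2.comp (tendsto_nhdsWithin_iff.mpr ⟨hlim, Eventually.of_forall hδ⟩)
      exact ht.eventually_ge_atTop x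
    have h2 : ∀ᶠ i in atTop, ENNReal.ofReal (Real.exp (-(C * x ^ 8))) ≤
        (R.law (δ i) : Measure X) {p : X | x ≤ p.2} := by
      filter_upwards [hlim.eventually (ge_mem_nhds hδ0), hev] with i hi hi2
      rw [R.law_apply (δ i) hG.measurableSet]
      exact ENNReal.ofReal_le_ofReal ((h (δ i) (hδ i) hi).2 x hx hi2)
    calc ENNReal.ofReal (Real.exp (-(C * x ^ 8))) =
          limsup (fun _ : ℕ => ENNReal.ofReal (Real.exp (-(C * x ^ 8)))) atTop :=
            (limsup_const _).symm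
      _ ≤ _ := limsup_le_limsup h2
  · have hG : IsOpen {p : X | x / 2 < p.2} := isOpen_lt continuous_const continuous_snd
    have h1 := ProbabilityMeasure.le_liminf_measure_open_of_tendsto hμ hG
    have h3 : (μ : Measure X) {p | x ≤ p.2} ≤ (μ : Measure X) {p | x / 2 < p.2} :=
      measure_mono fun p hp => by
        simp only [Set.mem_ofPred_eq] at hp ⊢
        linarith
    refine h3.trans (h1.trans ?_)
    have h2 : ∀ᶠ i in atTop, (R.law (δ i) : Measure X) {p : X | x / 2 < p.2} ≤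
        ENNReal.ofReal (C * Real.exp (-(c / 256 * x ^ 8))) := by
      filter_upwards [hlim.eventually (ge_mem_nhds hδ0)] with i hi
      rw [R.law_apply (δ i) hG.measurableSet]
      refine ENNReal.ofReal_le_ofReal ?_
      have h4 := (h (δ i) (hδ i) hi).1 (x / 2) (by positivity)
      have e : c * (x / 2) ^ 8 = c / 256 * x ^ 8 := by ring
      rw [e] at h4
      refine le_trans ?_ h4
      refine Pr_mono two_ok fun F _ hF => ?_
      exact le_of_lt hF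
    calc liminf (fun i => (R.law (δ i) : Measure X) {p : X | x / 2 < p.2}) atTop ≤
          liminf (fun _ : ℕ => ENNReal.ofReal (C * Real.exp (-(c / 256 * x ^ 8)))) atTop :=
            liminf_le_liminf h2
      _ = _ := liminf_const _

end TH992.T
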