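import Pool.Agent.TH992.T.Vis
import Pool.Agent.H984R3.Per.HookPr
import Pool.Agent.H984R3.Per.SHarris
import Pool.Agent.H984R3.Per.Second
import Pool.Agent.H984R3.Per.Count

/-!
Crossings of long strips.
-/

set_option autoImplicit false

namespace TH992.T

open H974 Finset H342P H984P H984N

/-- the constant of the crossings -/
noncomputable def q0 : ℝ := (1/2:ℝ)^767

theorem q0_pos : 0 < q0 := by unfold q0; positivity

theorem q0_le : q0 ≤ 1 := by
  unfold q0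
  exact pow_le_one₀ (by norm_num) (by norm_num)

theorem hh_step {h w : ℤ} (hh0 : 1 ≤ h) (hw : 0 ≤ w) :
    hh (1/2) (w + 8 * h) h * (q0 * q0) ≤ hh (1/2) (w + 16 * h) h := by
  have ok : Ok (fun _ : Edg => (1/2:ℝ)) := okq (by norm_num) (by norm_num)
  obtain ⟨S, hS⟩ : ∃ S : Finset Edg, S = RE 0 (w + 16 * h) 0 h := ⟨_, rfl⟩
  have sL : ∀ a b, 0 ≤ a → b ≤ w + 16 * h → LRE a b 0 h ⊆ S := fun a b ha hb => by
    rw [hS]
    exact LRE_subset_RE.trans (RE_subset ha hb le_rfl le_rfl)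
  have sT : ∀ a b, 0 ≤ a → b ≤ w + 16 * h → TBE a b 0 h ⊆ S := fun a b ha hb => by
    rw [hS]
    exact TBE_subset_RE.trans (RE_subset ha hb le_rfl le_rfl)
  have k0 : q0 ≤ hh (1/2) (16 * h) h := H12S.WH.main hh0
  have e1 : Pr (fun _ => (1/2:ℝ)) S (LRc 0 (w + 8 * h) 0 h) = hh (1/2) (w + 8 * h) h := by
    rw [pr_LRc _ (sL _ _ le_rfl (by omega)), sub_zero, sub_zero]
  have e2 : q0 ≤ Pr (fun _ => (1/2:ℝ)) S (LRc w (w + 16 * h) 0 h) := by
    rw [pr_LRc _ (sL _ _ hw (by omega)), sub_zero]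
    have : w + 16 * h - w = 16 * h := by ring
    rw [this]; exact k0
  have e3 : q0 ≤ Pr (fun _ => (1/2:ℝ)) S (TBc w (w + 8 * h) 0 h) := by
    rw [pr_TBc _ (sT _ _ hw (by omega)), sub_zero]
    have : w + 8 * h - w = 8 * h := by ring
    rw [this]
    exact k0.trans (hh_mono (by norm_num) (by norm_num) (by omega) (by omega) (by omega))
  have e4 : Pr (fun _ => (1/2:ℝ)) S (LRc 0 (w + 16 * h) 0 h) = hh (1/2) (w + 16 * h) h := by
    rw [pr_LRc _ (sL _ _ le_rfl le_rfl), sub_zero, sub_zero]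
  rw [← e1, ← e4]
  have h1 := Pr_harris ok (LRc_incr S w (w + 16 * h) 0 h) (TBc_incr S w (w + 8 * h) 0 h)
  have h2 := Pr_harris ok (A := LRc 0 (w + 8 * h) 0 h)
    (B := fun F => LRc w (w + 16 * h) 0 h F ∧ TBc w (w + 8 * h) 0 h F) (S := S)
    (LRc_incr S _ _ _ _) (fun F G h h' hF => ⟨LRc_incr S _ _ _ _ F G h h' hF.1,
      TBc_incr S _ _ _ _ F G h h' hF.2⟩)
  have h3 : q0 * q0 ≤ Pr (fun _ => (1/2:ℝ)) S
      (fun F => LRc w (w + 16 * h) 0 h F ∧ TBc w (w + 8 * h) 0 h F) :=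
    (mul_le_mul e2 e3 q0_pos.le (q0_pos.le.trans e2)).trans h1
  refine (mul_le_mul_of_nonneg_left h3 (Pr_nonneg ok _ _)).trans (h2.trans ?_)
  refine Pr_mono ok fun F _ hF => ?_
  exact glue hw (by omega) (by omega) (by omega) hF.1 hF.2.1 hF.2.2

theorem hh_long {h : ℤ} (hh0 : 1 ≤ h) (m : ℕ) :
    q0 ^ (2 * m + 1) ≤ hh (1/2) (8 * h * m + 8 * h) h := by
  induction m with
  | zero =>
    simp only [Nat.cast_zero, mul_zero, zero_add, pow_one]
    exact (H12S.WH.main hh0).trans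
      (hh_mono (by norm_num) (by norm_num) (by omega) (by omega) le_rfl)
  | succ m ih =>
    have h0 : 0 ≤ 8 * h * (m : ℤ) := by positivity
    have h1 := hh_step hh0 h0
    have e : 8 * h * ((m + 1 : ℕ) : ℤ) + 8 * h = 8 * h * (m : ℤ) + 16 * h := by push_cast; ring
    rw [e]
    refine le_trans ?_ h1
    rw [show 2 * (m + 1) + 1 = (2 * m + 1) + 2 by ring, pow_add, pow_two]
    exact mul_le_mul_of_nonneg_right ih (by have := q0_pos; positivity)

theorem hh_wide {w h : ℤ} (hw : 0 < w) (hh0 : 1 ≤ h) {m : ℕ} (hm : w ≤ 8 * h * m + 8 * h) :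
    q0 ^ (2 * m + 1) ≤ hh (1/2) w h :=
  (hh_long hh0 m).trans (hh_mono (by norm_num) (by norm_num) hw hm le_rfl)

/-- many strips -/
theorem strips {S : Finset Edg} {l r h : ℤ} {m : ℕ} (hlr : l < r) (hh0 : 1 ≤ h)
    (hm : r - l ≤ 8 * h * m + 8 * h) (g : ℕ → ℤ) (I : ℕ)
    (hS : ∀ i < I, LRE l r (g i) (g i + h) ⊆ S) :
    q0 ^ ((2 * m + 1) * I) ≤ Pr (fun _ => (1/2:ℝ)) S (fun F => ∀ i < I, LRc l r (g i) (g i + h) F) := by
  have ok : Ok (fun _ : Edg => (1/2:ℝ)) := okq (by norm_num) (by norm_num)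
  induction I with
  | zero =>
    rw [Nat.mul_zero, pow_zero]
    refine le_of_eq ?_
    symm
    exact Pr_true _ (fun F _ i hi => absurd hi (Nat.not_lt_zero i))
  | succ I ih =>
    have ih' := ih (fun i hi => hS i (by omega))
    have h1 : q0 ^ (2 * m + 1) ≤ Pr (fun _ => (1/2:ℝ)) S (LRc l r (g I) (g I + h)) := by
      rw [pr_LRc _ (hS I (by omega))]
      have : g I + h - g I = h := by ring
      rw [this]
      exact hh_wide (by omega) hh0 hm
    have h2 := Pr_harris ok (S := S) (A := fun F => ∀ i < I, LRc l r (g i) (g i + h) F)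
      (B := LRc l r (g I) (g I + h))
      (fun F G h h' hF i hi => LRc_incr S _ _ _ _ F G h h' (hF i hi)) (LRc_incr S _ _ _ _)
    rw [Nat.mul_succ, pow_add]
    have h3 : 0 ≤ q0 ^ (2 * m + 1) := pow_nonneg q0_pos.le _
    refine (mul_le_mul ih' h1 h3 ((pow_nonneg q0_pos.le _).trans ih')).trans (h2.trans ?_)
    refine Pr_mono ok fun F _ hF i hi => ?_
    rcases Nat.lt_succ_iff_lt_or_eq.mp hi with h4 | h4
    · exact hF.1 i h4
    · rw [h4]; exact hF.2

/-- many dual strips -/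
theorem dstrips {S : Finset Edg} {l r h : ℤ} {m : ℕ} (hlr : l < r) (hh0 : 1 ≤ h)
    (hm : r - l ≤ 8 * h * m + 8 * h) (g : ℕ → ℤ) (I : ℕ)
    (hS : ∀ i < I, LRE l r (g i) (g i + h) ⊆ dmp S) :
    q0 ^ ((2 * m + 1) * I) ≤ Pr (fun _ => (1/2:ℝ)) S
      (fun F => ∀ i < I, LRc l r (g i) (g i + h) (dmp (S \ F))) := by
  have e := H12S.pr_dual (q := 1/2) S (fun F => ∀ i < I, LRc l r (g i) (g i + h) F)
  have e1 : (1:ℝ) - 1/2 = 1/2 := by norm_num
  rw [e1] at e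
  unfold H12S.PQ at e
  rw [e]
  exact strips hlr hh0 hm g I hS

end TH992.T
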