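import Pool.Agent.TH992.T.Chern

/-!
Multi-scale upper tails for the number of points with local arm events:
if the mean number in a box of side `s` is at most `C0 s ^ (2 - a)`, `0 < a < 1`, then the number
exceeds `u s ^ (2 - a)` with probability at most `9 exp (- (u / l) ^ (2 / a))`.
-/

set_option autoImplicit false

namespace TH992.T

open H974 Finset Filter Topology

/-- Half-open square box. -/
noncomputable def Bq (b c : ℤ) (s : ℕ) : Finset Vtx := Finset.Ico b (b + s) ×ˢ Finset.Ico c (c + s)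

theorem mem_Bq {b c : ℤ} {s : ℕ} {v : Vtx} :
    v ∈ Bq b c s ↔ (b ≤ v.1 ∧ v.1 < b + s) ∧ (c ≤ v.2 ∧ v.2 < c + s) := by
  unfold Bq
  rw [mem_product, mem_Ico, mem_Ico]

/-- A family of local variables at all scales. -/
structure Fam (a B C0 : ℝ) (p : Edg → ℝ) (S : Finset Edg) (x : ℕ → Vtx → Finset Edg → ℝ) :
    Prop where
  ok : Ok p
  nonneg : ∀ s v F, 0 ≤ x s v F
  le : ∀ s v F, x s v F ≤ B
  anti : ∀ s s' v F, s' ≤ s → x s v F ≤ x s' v F
  loc : ∀ s v F, F ⊆ S →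
    x s v F = x s v (F ∩ (RE (v.1 - s) (v.1 + s) (v.2 - s) (v.2 + s) ∩ S))
  mean : ∀ s : ℕ, 1 ≤ s → ∀ b c : ℤ, ∑ v ∈ Bq b c s, Ex p S (x s v) ≤ C0 * (s : ℝ) ^ (2 - a)

/-- The number in a box. -/
noncomputable def Nb (x : ℕ → Vtx → Finset Edg → ℝ) (s : ℕ) (b c : ℤ) (F : Finset Edg) : ℝ :=
  ∑ v ∈ Bq b c s, x s v F

/-- The normalised number in a box. -/
noncomputable def Yb (a : ℝ) (x : ℕ → Vtx → Finset Edg → ℝ) (s : ℕ) (b c : ℤ) (F : Finset Edg) :
    ℝ := Nb x s b c F / (s : ℝ) ^ (2 - a)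

variable {a B C0 : ℝ} {p : Edg → ℝ} {S : Finset Edg} {x : ℕ → Vtx → Finset Edg → ℝ}

theorem Nb_nonneg (h : Fam a B C0 p S x) (s : ℕ) (b c : ℤ) (F : Finset Edg) :
    0 ≤ Nb x s b c F := sum_nonneg fun _ _ => h.nonneg _ _ _

theorem Yb_nonneg (h : Fam a B C0 p S x) (s : ℕ) (b c : ℤ) (F : Finset Edg) :
    0 ≤ Yb a x s b c F := div_nonneg (Nb_nonneg h s b c F) (Real.rpow_nonneg (Nat.cast_nonneg _) _)

theorem card_Bq (b c : ℤ) (s : ℕ) : (Bq b c s).card = s * s := by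
  unfold Bq
  rw [card_product, Int.card_Ico, Int.card_Ico]
  simp

theorem Nb_le (h : Fam a B C0 p S x) (s : ℕ) (b c : ℤ) (F : Finset Edg) :
    Nb x s b c F ≤ B * ((s : ℝ) * s) := by
  unfold Nb
  refine (sum_le_card_nsmul _ _ B (fun v _ => h.le s v F)).trans ?_
  rw [card_Bq, nsmul_eq_mul]
  push_cast
  linarith

theorem Yb_le (h : Fam a B C0 p S x) {s : ℕ} (hs : 1 ≤ s) (b c : ℤ) (F : Finset Edg) :
    Yb a x s b c F ≤ B * (s : ℝ) ^ a := by
  have hs0 : (0 : ℝ) < s := by exact_mod_cast hs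
  unfold Yb
  rw [div_le_iff₀ (Real.rpow_pos_of_pos hs0 _), mul_assoc, ← Real.rpow_add hs0]
  have e : a + (2 - a) = ((2 : ℕ) : ℝ) := by push_cast; ring
  rw [e, Real.rpow_natCast]
  have := Nb_le h s b c F
  nlinarith

/-- the edges on which the number in a box depends -/
noncomputable def Tb (S : Finset Edg) (s : ℕ) (b c : ℤ) : Finset Edg :=
  RE (b - s) (b + s - 1 + s) (c - s) (c + s - 1 + s) ∩ S

theorem RE_sub_RE {a b c d a' b' c' d' : ℤ} (h1 : a' ≤ a) (h2 : b ≤ b') (h3 : c' ≤ c)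
    (h4 : d ≤ d') : RE a b c d ⊆ RE a' b' c' d' := by
  rintro ⟨x, y, t⟩ he
  cases t
  · rw [mem_RE_false] at he ⊢; omega
  · rw [mem_RE_true] at he ⊢; omega

theorem Nb_local (h : Fam a B C0 p S x) (s : ℕ) (b c : ℤ) (F : Finset Edg) (hF : F ⊆ S) :
    Nb x s b c F = Nb x s b c (F ∩ Tb S s b c) := by
  unfold Nb
  refine sum_congr rfl fun v hv => ?_
  rw [mem_Bq] at hv
  have hsub : RE (v.1 - s) (v.1 + s) (v.2 - s) (v.2 + s) ∩ S ⊆ Tb S s b c :=
    inter_subset_inter (RE_sub_RE (by omega) (by omega) (by omega) (by omega)) (Subset.refl _)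
  rw [h.loc s v F hF, h.loc s v (F ∩ Tb S s b c) (inter_subset_left.trans hF), inter_assoc,
    inter_eq_right.mpr hsub]

theorem Tb_disj {s : ℕ} {b c : ℤ} (hs : 1 ≤ s) {q r : ℕ × ℕ} (hqr : q ≠ r)
    (h1 : q.1 % 3 = r.1 % 3) (h2 : q.2 % 3 = r.2 % 3) :
    Disjoint (Tb S s (b + q.1 * s) (c + q.2 * s)) (Tb S s (b + r.1 * s) (c + r.2 * s)) := by
  obtain ⟨i, j⟩ := q
  obtain ⟨k, l⟩ := r
  simp only at h1 h2
  rw [disjoint_left]
  rintro ⟨X, Y, t⟩ he he'
  unfold Tb at he he'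
  rw [mem_inter] at he he'
  have key : ∀ i k : ℕ, i % 3 = k % 3 → ∀ (b X : ℤ), b + i * s - s ≤ X →
      X ≤ b + i * s + s - 1 + s → b + k * s - s ≤ X → X ≤ b + k * s + s - 1 + s → i = k := by
    intro i k hik b X h1 h2 h3 h4
    by_contra hne
    rcases lt_or_gt_of_ne hne with hlt | hgt
    · have : i + 3 ≤ k := by omega
      have h5 : ((i : ℤ) + 3) * s ≤ k * s :=
        mul_le_mul_of_nonneg_right (by exact_mod_cast this) (Int.natCast_nonneg s)
      have h6 : (1 : ℤ) ≤ s := by exact_mod_cast hs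
      nlinarith
    · have : k + 3 ≤ i := by omega
      have h5 : ((k : ℤ) + 3) * s ≤ i * s :=
        mul_le_mul_of_nonneg_right (by exact_mod_cast this) (Int.natCast_nonneg s)
      have h6 : (1 : ℤ) ≤ s := by exact_mod_cast hs
      nlinarith
  apply hqr
  cases t
  · rw [mem_RE_false] at he he'
    rw [key i k h1 b X he.1.1 he.1.2.1 he'.1.1 he'.1.2.1,
      key j l h2 c Y he.1.2.2.1 (by linarith [he.1.2.2.2]) he'.1.2.2.1 (by linarith [he'.1.2.2.2])]
  · rw [mem_RE_true] at he he'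
    rw [key i k h1 b X he.1.1 (by linarith [he.1.2.1]) he'.1.1 (by linarith [he'.1.2.1]),
      key j l h2 c Y he.1.2.2.1 he.1.2.2.2 he'.1.2.2.1 he'.1.2.2.2]

theorem sum_bi_le {ι κ : Type*} [DecidableEq ι] [DecidableEq κ] (I : Finset ι) (B : ι → Finset κ)
    (f : κ → ℝ) (hf : ∀ v, 0 ≤ f v) : ∑ v ∈ I.biUnion B, f v ≤ ∑ i ∈ I, ∑ v ∈ B i, f v := by
  induction I using Finset.induction_on with
  | empty => simp
  | insert i I hi ih =>
    rw [biUnion_insert, sum_insert hi]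
    have h := sum_union_inter (s₁ := B i) (s₂ := I.biUnion B) (f := f)
    have h2 : 0 ≤ ∑ v ∈ B i ∩ I.biUnion B, f v := sum_nonneg fun v _ => hf v
    linarith

/-- covering of a box by boxes of side `r` -/
theorem Nb_cover (h : Fam a B C0 p S x) {s r n : ℕ} (hr : 1 ≤ r) (hrs : r ≤ s) (hn : s ≤ n * r)
    (b c : ℤ) (F : Finset Edg) :
    Nb x s b c F ≤ ∑ q ∈ range n ×ˢ range n, Nb x r (b + q.1 * r) (c + q.2 * r) F := by
  have hsub : Bq b c s ⊆ (range n ×ˢ range n).biUnion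
      (fun q => Bq (b + q.1 * r) (c + q.2 * r) r) := by
    intro v hv
    rw [mem_Bq] at hv
    rw [mem_biUnion]
    have hr' : (0 : ℤ) < r := by exact_mod_cast hr
    obtain ⟨i, hi⟩ := Int.eq_ofNat_of_zero_le (Int.ediv_nonneg (show 0 ≤ v.1 - b by linarith) hr'.le)
    obtain ⟨j, hj⟩ := Int.eq_ofNat_of_zero_le (Int.ediv_nonneg (show 0 ≤ v.2 - c by linarith) hr'.le)
    have e1 := Int.emod_add_mul_ediv (v.1 - b) r
    have e2 := Int.emod_add_mul_ediv (v.2 - c) r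
    have e3 := Int.emod_nonneg (v.1 - b) hr'.ne'
    have e4 := Int.emod_lt_of_pos (v.1 - b) hr'
    have e5 := Int.emod_nonneg (v.2 - c) hr'.ne'
    have e6 := Int.emod_lt_of_pos (v.2 - c) hr'
    have hn' : (s : ℤ) ≤ n * r := by exact_mod_cast hn
    rw [hi] at e1
    rw [hj] at e2
    refine ⟨(i, j), ?_, ?_⟩
    · rw [mem_product, mem_range, mem_range]
      constructor
      · by_contra hcon
        push Not at hcon
        have : (n : ℤ) * r ≤ r * i := by
          rw [mul_comm]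
          exact mul_le_mul_of_nonneg_left (by exact_mod_cast hcon) hr'.le
        linarith
      · by_contra hcon
        push Not at hcon
        have : (n : ℤ) * r ≤ r * j := by
          rw [mul_comm]
          exact mul_le_mul_of_nonneg_left (by exact_mod_cast hcon) hr'.le
        linarith
    · rw [mem_Bq]
      have f1 : (i : ℤ) * r = r * i := mul_comm _ _
      have f2 : (j : ℤ) * r = r * j := mul_comm _ _
      simp only
      rw [f1, f2]
      refine ⟨⟨?_, ?_⟩, ?_, ?_⟩ <;> linarith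
  calc Nb x s b c F ≤ ∑ v ∈ Bq b c s, x r v F := sum_le_sum fun v _ => h.anti s r v F hrs
    _ ≤ ∑ v ∈ (range n ×ˢ range n).biUnion (fun q => Bq (b + q.1 * r) (c + q.2 * r) r), x r v F :=
        sum_le_sum_of_subset_of_nonneg hsub fun v _ _ => h.nonneg _ _ _
    _ ≤ ∑ q ∈ range n ×ˢ range n, ∑ v ∈ Bq (b + q.1 * r) (c + q.2 * r) r, x r v F :=
        sum_bi_le _ _ _ fun v => h.nonneg _ _ _
    _ = _ := rfl

end TH992.T
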