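import Pool.Agent.TH992.T.Tail

/-!
The recursion over the scales.
-/

set_option autoImplicit false

namespace TH992.T

open H974 Finset Filter Topology

variable {a B C0 : ℝ} {p : Edg → ℝ} {S : Finset Edg} {x : ℕ → Vtx → Finset Edg → ℝ}

/-- the side of the small boxes -/
theorem side {s K : ℕ} (hK : 1 ≤ K) (hKs : K ≤ s) : 1 ≤ s / K ∧ s / K ≤ s ∧ K * (s / K) ≤ s ∧
    s ≤ (2 * K) * (s / K) := by
  have h1 : 1 ≤ s / K := (Nat.one_le_div_iff (by omega)).mpr hKs
  have h2 : K * (s / K) ≤ s := Nat.mul_div_le _ _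
  have h3 : s < K * (s / K + 1) := Nat.lt_mul_div_succ s (by omega)
  refine ⟨h1, Nat.div_le_self _ _, h2, ?_⟩
  have h4 : K * (s / K + 1) ≤ K * (s / K + s / K) := Nat.mul_le_mul_left _ (by omega)
  have h5 : K * (s / K + s / K) = (2 * K) * (s / K) := by ring
  omega

/-- the normalised number is at most a multiple of the average over the small boxes -/
theorem Yb_sub (h : Fam a B C0 p S x) (ha : a ≤ 2) {s K : ℕ} (hK : 1 ≤ K) (hKs : K ≤ s)
    (b c : ℤ) (F : Finset Edg) :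
    (K : ℝ) ^ (2 - a) * Yb a x s b c F ≤ ∑ q ∈ range (2 * K) ×ˢ range (2 * K),
      Yb a x (s / K) (b + q.1 * (s / K : ℕ)) (c + q.2 * (s / K : ℕ)) F := by
  obtain ⟨h1, h2, h3, h4⟩ := side hK hKs
  have hK0 : (0 : ℝ) < K := by exact_mod_cast hK
  have hr0 : (0 : ℝ) < (s / K : ℕ) := by exact_mod_cast h1
  have hs0 : (0 : ℝ) < s := by exact_mod_cast (by omega : 0 < s)
  have hc := Nb_cover h h1 h2 h4 b c F
  unfold Yb
  rw [← sum_div, le_div_iff₀ (Real.rpow_pos_of_pos hr0 _)]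
  have h5 : (K : ℝ) ^ (2 - a) * ((s / K : ℕ) : ℝ) ^ (2 - a) ≤ (s : ℝ) ^ (2 - a) := by
    rw [← Real.mul_rpow hK0.le hr0.le]
    refine Real.rpow_le_rpow (by positivity) ?_ (by linarith)
    exact_mod_cast h3
  have h6 : 0 ≤ Nb x s b c F := Nb_nonneg h s b c F
  calc (K : ℝ) ^ (2 - a) * (Nb x s b c F / (s : ℝ) ^ (2 - a)) * ((s / K : ℕ) : ℝ) ^ (2 - a)
      = ((K : ℝ) ^ (2 - a) * ((s / K : ℕ) : ℝ) ^ (2 - a)) * (Nb x s b c F / (s : ℝ) ^ (2 - a)) := by
        ring
    _ ≤ (s : ℝ) ^ (2 - a) * (Nb x s b c F / (s : ℝ) ^ (2 - a)) :=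
        mul_le_mul_of_nonneg_right h5 (div_nonneg h6 (Real.rpow_nonneg hs0.le _))
    _ = Nb x s b c F := by
        rw [mul_div_cancel₀]
        exact (Real.rpow_pos_of_pos hs0 _).ne'
    _ ≤ _ := hc

/-- the choice of the number of small boxes -/
theorem choice (ha : 0 < a) (ha1 : a ≤ 1) {l u : ℝ} (hl : 1 ≤ l) (hu : l ≤ u) :
    ∃ K : ℕ, 1 ≤ K ∧ K = ⌈(u / l) ^ (1 / a)⌉₊ ∧ (K : ℝ) ≤ 2 * (u / l) ^ (1 / a) ∧
      (u / l) ^ (2 / a) ≤ (K : ℝ) * K ∧ (l / 2) * ((K : ℝ) * K) ≤ (K : ℝ) ^ (2 - a) * u := by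
  have hl0 : 0 < l := by linarith
  have h1 : 1 ≤ u / l := by rwa [le_div_iff₀ hl0, one_mul]
  have h2 : 1 ≤ (u / l) ^ (1 / a) := Real.one_le_rpow h1 (by positivity)
  have h3 : (u / l) ^ (1 / a) ≤ (⌈(u / l) ^ (1 / a)⌉₊ : ℝ) := Nat.le_ceil _
  have h4 : (⌈(u / l) ^ (1 / a)⌉₊ : ℝ) < (u / l) ^ (1 / a) + 1 := Nat.ceil_lt_add_one (by linarith)
  have hK1 : (1 : ℝ) ≤ (⌈(u / l) ^ (1 / a)⌉₊ : ℝ) := by linarith
  have hK0 : (0 : ℝ) < (⌈(u / l) ^ (1 / a)⌉₊ : ℝ) := by linarith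
  refine ⟨_, by exact_mod_cast hK1, rfl, by linarith, ?_, ?_⟩
  · have e : (2 / a) = (1 / a) + (1 / a) := by ring
    rw [e, Real.rpow_add (by linarith)]
    exact mul_le_mul h3 h3 (by positivity) hK0.le
  · have e : (2 - a : ℝ) = ((2 : ℕ) : ℝ) + (-a) := by push_cast; ring
    rw [e, Real.rpow_add hK0, Real.rpow_natCast]
    set K : ℝ := (⌈(u / l) ^ (1 / a)⌉₊ : ℝ) with hK
    have h5 : (K / 2) ^ a ≤ u / l := by
      have h6 : K / 2 ≤ (u / l) ^ (1 / a) := by linarith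
      calc (K / 2) ^ a ≤ ((u / l) ^ (1 / a)) ^ a := Real.rpow_le_rpow (by positivity) h6 ha.le
        _ = u / l := by
          rw [← Real.rpow_mul (by linarith), one_div, inv_mul_cancel₀ ha.ne', Real.rpow_one]
    have h7 : K ^ a ≤ 2 * (u / l) := by
      have h8 : K ^ a = 2 ^ a * (K / 2) ^ a := by
        rw [← Real.mul_rpow (by norm_num) (by positivity)]
        congr 1
        ring
      rw [h8]
      have h9 : (2 : ℝ) ^ a ≤ 2 := by
        calc (2 : ℝ) ^ a ≤ 2 ^ (1 : ℝ) := Real.rpow_le_rpow_of_exponent_le (by norm_num) ha1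
          _ = 2 := Real.rpow_one 2
      exact mul_le_mul h9 h5 (by positivity) (by norm_num)
    have h10 : 0 < K ^ a := Real.rpow_pos_of_pos hK0 _
    rw [Real.rpow_neg hK0.le]
    have h11 : l / 2 ≤ (K ^ a)⁻¹ * u := by
      rw [inv_mul_eq_div, le_div_iff₀ h10]
      have h12 : l / 2 * K ^ a ≤ l / 2 * (2 * (u / l)) :=
        mul_le_mul_of_nonneg_left h7 (by positivity)
      have h13 : l / 2 * (2 * (u / l)) = u := by field_simp
      linarith
    calc l / 2 * (K * K) ≤ ((K ^ a)⁻¹ * u) * (K * K) :=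
          mul_le_mul_of_nonneg_right h11 (by positivity)
      _ = K ^ 2 * (K ^ a)⁻¹ * u := by ring

/-- if there are more small boxes than points, nothing to prove -/
theorem big (h : Fam a B C0 p S x) (ha : 0 < a) {l u : ℝ} (hl : 1 ≤ l) (hBl : B ≤ l)
    {s : ℕ} (hs : 1 ≤ s) (hK : s < ⌈(u / l) ^ (1 / a)⌉₊) (hu : 0 ≤ u) (b c : ℤ)
    (F : Finset Edg) : ¬ u ≤ Yb a x s b c F := by
  intro hcon
  have hl0 : 0 < l := by linarith
  have hs0 : (0 : ℝ) < s := by exact_mod_cast hs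
  rw [Nat.lt_ceil] at hK
  have h1 : (s : ℝ) ^ a < u / l := by
    calc (s : ℝ) ^ a < ((u / l) ^ (1 / a)) ^ a := Real.rpow_lt_rpow hs0.le hK ha
      _ = u / l := by
        rw [← Real.rpow_mul (by positivity), one_div, inv_mul_cancel₀ ha.ne', Real.rpow_one]
  rw [lt_div_iff₀ hl0] at h1
  have h2 := Yb_le h hs b c F
  have h3 : B * (s : ℝ) ^ a ≤ l * (s : ℝ) ^ a :=
    mul_le_mul_of_nonneg_right hBl (Real.rpow_pos_of_pos hs0 _).le
  linarith

/-- the numerical conditions -/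
theorem numer (ha : 0 < a) (ha1 : a < 1) {l : ℝ} (hl : 1 ≤ l) : ∃ u0 : ℝ, l < u0 ∧ ∀ u : ℝ, u0 < u →
    2 * u ^ 2 ≤ (u / l) ^ (2 / a) ∧ 16 * (u / l) ^ (2 / a) * Real.exp (-u) ≤ 1 / 2 ∧
      9 * Real.exp (-u) ≤ 1 / 2 := by
  have hl0 : 0 < l := by linarith
  have h2a : 0 < 2 / a - 2 := by
    rw [sub_pos, lt_div_iff₀ ha]
    linarith
  have e1 : ∀ᶠ u : ℝ in atTop, 2 * l ^ (2 / a) ≤ u ^ (2 / a - 2) :=
    (tendsto_rpow_atTop h2a).eventually_ge_atTop _
  have t2 : Tendsto (fun u : ℝ => 16 * l ^ (-(2 / a)) * (u ^ (2 / a) * Real.exp (-u))) atTop (𝓝 0) := by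
    have := (tendsto_rpow_mul_exp_neg_mul_atTop_nhds_zero (2 / a) 1 one_pos).const_mul
      (16 * l ^ (-(2 / a)))
    rw [mul_zero] at this
    refine this.congr fun u => ?_
    rw [neg_one_mul]
  have e2 := t2.eventually_le_const (show (0:ℝ) < 1 / 2 by norm_num)
  have t3 : Tendsto (fun u : ℝ => 9 * Real.exp (-u)) atTop (𝓝 0) := by
    have := Real.tendsto_exp_neg_atTop_nhds_zero.const_mul (9:ℝ)
    rwa [mul_zero] at this
  have e3 := t3.eventually_le_const (show (0:ℝ) < 1 / 2 by norm_num)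
  obtain ⟨u1, h1⟩ := eventually_atTop.mp (e1.and (e2.and e3))
  refine ⟨max u1 (l + 1), lt_of_lt_of_le (by linarith) (le_max_right _ _), fun u hu => ?_⟩
  have hu1 : u1 ≤ u := (le_max_left _ _).trans hu.le
  have hul : l < u := lt_of_lt_of_le (by linarith) ((le_max_right u1 (l + 1)).trans hu.le)
  have hu0 : 0 < u := by linarith
  obtain ⟨g1, g2, g3⟩ := h1 u hu1
  have e4 : (u / l) ^ (2 / a) = u ^ (2 / a) * l ^ (-(2 / a)) := by
    rw [Real.div_rpow hu0.le hl0.le, Real.rpow_neg hl0.le, div_eq_mul_inv]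
  refine ⟨?_, ?_, g3⟩
  · rw [Real.div_rpow hu0.le hl0.le, le_div_iff₀ (Real.rpow_pos_of_pos hl0 _)]
    have e5 : u ^ (2 / a) = u ^ 2 * u ^ (2 / a - 2) := by
      rw [← Real.rpow_natCast, ← Real.rpow_add hu0]
      congr 1
      push_cast
      ring
    rw [e5]
    have : 0 ≤ u ^ 2 := by positivity
    nlinarith
  · rw [e4]
    calc 16 * (u ^ (2 / a) * l ^ (-(2 / a))) * Real.exp (-u)
        = 16 * l ^ (-(2 / a)) * (u ^ (2 / a) * Real.exp (-u)) := by ring
      _ ≤ 1 / 2 := g2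

/-- the first tail bound -/
theorem tail0 (ha : 0 < a) (ha1 : a < 1) (B : ℝ) (hC0 : 0 ≤ C0) : ∃ u0 : ℝ,
    ∀ (p : Edg → ℝ) (S : Finset Edg) (x : ℕ → Vtx → Finset Edg → ℝ), Fam a B C0 p S x →
    ∀ (s : ℕ) (b c : ℤ) (u : ℝ), 1 ≤ s → 0 ≤ u →
      Pr p S (fun F => u ≤ Yb a x s b c F) ≤ Real.exp (u0 - u) := by
  obtain ⟨l, hl⟩ : ∃ l : ℝ, l = max (72 * (4 * C0 + 1)) (max B 1) := ⟨_, rfl⟩
  have hl1 : 1 ≤ l := by rw [hl]; exact (le_max_right B 1).trans (le_max_right _ _)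
  have hlB : B ≤ l := by rw [hl]; exact (le_max_left B 1).trans (le_max_right _ _)
  have hlC : 72 * (4 * C0 + 1) ≤ l := by rw [hl]; exact le_max_left _ _
  obtain ⟨u0, hu0, hnum⟩ := numer ha ha1 hl1
  refine ⟨u0, fun p S x h s => ?_⟩
  induction s using Nat.strong_induction_on with
  | _ s ih =>
    intro b c u hs hu
    rcases le_or_gt u u0 with hle | hgt
    · exact (Pr_le_one h.ok _ _).trans (Real.one_le_exp (by linarith))
    obtain ⟨n1, n2, n3⟩ := hnum u hgt
    have hlu : l ≤ u := by linarith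
    have hupos : 0 < u := by linarith
    obtain ⟨K, hK1, hKe, hK2, hK3, hK4⟩ := choice ha ha1.le hl1 hlu
    rcases Nat.lt_or_ge s K with hlt | hge
    · have hz : Pr p S (fun F => u ≤ Yb a x s b c F) ≤ 0 := by
        unfold Pr
        refine Ex_le_of_le h.ok fun F _ => ?_
        rw [ind_not_of (big h ha hl1 hlB hs (by rw [← hKe]; exact hlt) hu b c F)]
      exact hz.trans (Real.exp_pos _).le
    -- K ≤ s
    have hKr : (1 : ℝ) ≤ K := by exact_mod_cast hK1
    have hK22 : 2 ≤ K := by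
      by_contra hcon
      have hK' : K = 1 := by omega
      rw [hK'] at hK3
      have h1 : 1 < (u / l) ^ (2 / a) := by
        refine Real.one_lt_rpow ?_ (by positivity)
        rw [lt_div_iff₀ (by linarith)]
        linarith
      push_cast at hK3
      linarith
    obtain ⟨r, hr⟩ : ∃ r : ℕ, r = s / K := ⟨_, rfl⟩
    obtain ⟨s1, s2, s3, s4⟩ := side hK1 hge
    have hrs : r < s := by
      rw [hr]
      exact Nat.div_lt_self (by omega) hK22
    rw [← hr] at s1 s2 s3 s4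
    obtain ⟨G, hG⟩ : ∃ G : Finset (ℕ × ℕ), G = range (2 * K) ×ˢ range (2 * K) := ⟨_, rfl⟩
    have hGc : (G.card : ℝ) = 4 * (K * K) := by
      rw [hG, card_product, card_range]; push_cast; ring
    obtain ⟨Y, hY⟩ : ∃ Y : ℕ × ℕ → Finset Edg → ℝ,
      Y = fun q F => Yb a x r (b + q.1 * (r : ℕ)) (c + q.2 * (r : ℕ)) F := ⟨_, rfl⟩
    have hY0 : ∀ q F, 0 ≤ Y q F := fun q F => by rw [hY]; exact Yb_nonneg h _ _ _ _
    obtain ⟨t, ht⟩ : ∃ t : ℝ, t = l * (K * K) / (36 * u) := ⟨_, rfl⟩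
    -- deterministic
    have hdet : ∀ F, u ≤ Yb a x s b c F → (∃ q ∈ G, 2 * u ≤ Y q F) ∨
        9 * (t / 2) ≤ ∑ q ∈ G, min (Y q F) (2 * u) / (2 * u) := by
      intro F hF
      by_contra hcon
      push Not at hcon
      obtain ⟨c1, c2⟩ := hcon
      have h1 := Yb_sub h (by linarith) hK1 hge b c F
      rw [← hr, ← hG] at h1
      have h2 : (l / 2) * (K * K) ≤ ∑ q ∈ G, Y q F := by
        rw [hY]
        refine hK4.trans (le_trans ?_ h1)
        exact mul_le_mul_of_nonneg_left hF (Real.rpow_nonneg (by linarith) _)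
      have h3 : ∑ q ∈ G, min (Y q F) (2 * u) / (2 * u) = (∑ q ∈ G, Y q F) / (2 * u) := by
        rw [sum_div]
        refine sum_congr rfl fun q hq => ?_
        rw [min_eq_left (c1 q hq).le]
      rw [h3, div_lt_iff₀ (by positivity)] at c2
      have h4 : 9 * (t / 2) * (2 * u) = l / 4 * (K * K) := by
        rw [ht]; field_simp; ring
      rw [h4] at c2
      have h5 : 0 < l * (K * K) := by positivity
      linarith
    have hP : Pr p S (fun F => u ≤ Yb a x s b c F) ≤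
        ∑ q ∈ G, Pr p S (fun F => 2 * u ≤ Y q F) +
        Pr p S (fun F => 9 * (t / 2) ≤ ∑ q ∈ G, min (Y q F) (2 * u) / (2 * u)) := by
      calc Pr p S (fun F => u ≤ Yb a x s b c F) ≤ Ex p S (fun F => ∑ q ∈ G, ind (2 * u ≤ Y q F) +
            ind (9 * (t / 2) ≤ ∑ q ∈ G, min (Y q F) (2 * u) / (2 * u))) := by
            unfold Pr
            refine Ex_mono h.ok fun F _ => ?_
            by_cases hF : u ≤ Yb a x s b c F
            · rw [ind_of hF]
              rcases hdet F hF with ⟨q, hq, hq2⟩ | h2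
              · have h3 : ind (2 * u ≤ Y q F) ≤ ∑ q ∈ G, ind (2 * u ≤ Y q F) :=
                  single_le_sum (f := fun q => ind (2 * u ≤ Y q F)) (fun _ _ => ind_nonneg _) hq
                rw [ind_of hq2] at h3
                have h4 := ind_nonneg (9 * (t / 2) ≤ ∑ q ∈ G, min (Y q F) (2 * u) / (2 * u))
                linarith
              · rw [ind_of h2]
                have h3 : 0 ≤ ∑ q ∈ G, ind (2 * u ≤ Y q F) := sum_nonneg fun _ _ => ind_nonneg _
                linarith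
            · rw [ind_not_of hF]
              exact add_nonneg (sum_nonneg fun _ _ => ind_nonneg _) (ind_nonneg _)
        _ = _ := by rw [Ex_add, Ex_sum]; rfl
    -- the first term
    have hA : ∑ q ∈ G, Pr p S (fun F => 2 * u ≤ Y q F) ≤ (4 * (K * K)) * Real.exp (u0 - 2 * u) := by
      rw [← hGc, ← nsmul_eq_mul]
      refine sum_le_card_nsmul _ _ _ fun q _ => ?_
      rw [hY]
      exact ih r hrs _ _ (2 * u) s1 (by positivity)
    -- the second term
    have hB : Pr p S (fun F => 9 * (t / 2) ≤ ∑ q ∈ G, min (Y q F) (2 * u) / (2 * u)) ≤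
        9 * Real.exp (-(2 * u)) := by
      have h1 := chern9 h.ok (2 * K) (fun q => Tb S r (b + q.1 * (r : ℕ)) (c + q.2 * (r : ℕ)))
        (fun q => inter_subset_right) (fun q q' hqq h1 h2 => Tb_disj s1 hqq h1 h2)
        (fun q F => min (Y q F) (2 * u) / (2 * u)) (fun q F hF => by
          show min (Y q F) (2 * u) / (2 * u) = min (Y q (F ∩ _)) (2 * u) / (2 * u)
          rw [hY]
          simp only [Yb]
          rw [← Nb_local h r _ _ F hF])
        (M := Real.exp (2 * C0 / (2 * u))) (Real.one_le_exp (by positivity))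
        (fun q => trunc h.ok (Y q) (hY0 q) (by positivity) (by
          rw [hY]
          show Ex p S (fun F => Nb x r _ _ F / (r : ℝ) ^ (2 - a)) ≤ C0
          have hrr : (0 : ℝ) < (r : ℝ) ^ (2 - a) :=
            Real.rpow_pos_of_pos (by exact_mod_cast s1) _
          have e : (fun F => Nb x r (b + q.1 * (r : ℕ)) (c + q.2 * (r : ℕ)) F / (r : ℝ) ^ (2 - a)) =
              fun F => Nb x r (b + q.1 * (r : ℕ)) (c + q.2 * (r : ℕ)) F * ((r : ℝ) ^ (2 - a))⁻¹ := by
            funext F; rw [div_eq_mul_inv]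
          rw [e, Ex_mul_right, ← div_eq_mul_inv, div_le_iff₀ hrr]
          unfold Nb
          rw [Ex_sum]
          exact h.mean r s1 _ _)) (t / 2)
      rw [← hG] at h1
      refine h1.trans (mul_le_mul_of_nonneg_left ?_ (by norm_num))
      rw [← Real.exp_nat_mul, ← Real.exp_add]
      refine Real.exp_le_exp.mpr ?_
      push_cast
      have e1 : 2 * (K : ℝ) * (2 * K) * (2 * C0 / (2 * u)) = 4 * C0 * (K * K) / u := by
        field_simp; ring
      have e2 : t / 2 = l * (K * K) / (72 * u) := by rw [ht]; field_simp; ring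
      rw [e1, e2]
      have e3 : l * ((K : ℝ) * K) / (72 * u) = (l / 72) * (K * K) / u := by field_simp
      rw [e3]
      have h2 : (4 * C0 + 1) * ((K : ℝ) * K) ≤ (l / 72) * (K * K) :=
        mul_le_mul_of_nonneg_right (by linarith) (by positivity)
      have h3 : 2 * u ≤ ((K : ℝ) * K) / u := by
        rw [le_div_iff₀ hupos]
        nlinarith
      have h4 : (4 * C0 + 1) * ((K : ℝ) * K) / u ≤ (l / 72) * (K * K) / u :=
        div_le_div_of_nonneg_right h2 hupos.le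
      have h5 : (4 * C0 + 1) * ((K : ℝ) * K) / u = 4 * C0 * (K * K) / u + (K * K) / u := by ring
      linarith
    refine hP.trans ((add_le_add hA hB).trans ?_)
    have e1 : Real.exp (u0 - 2 * u) = Real.exp (u0 - u) * Real.exp (-u) := by
      rw [← Real.exp_add]; congr 1; ring
    have e2 : Real.exp (-(2 * u)) = Real.exp (-u) * Real.exp (-u) := by
      rw [← Real.exp_add]; congr 1; ring
    rw [e1, e2]
    have h1 : 4 * ((K : ℝ) * K) ≤ 16 * (u / l) ^ (2 / a) := by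
      have e : (u / l) ^ (2 / a) = (u / l) ^ (1 / a) * (u / l) ^ (1 / a) := by
        rw [← Real.rpow_add (by positivity)]; congr 1; ring
      rw [e]
      have hx0 : 0 ≤ (u / l) ^ (1 / a) := by positivity
      nlinarith
    have h2 : 4 * ((K : ℝ) * K) * Real.exp (-u) ≤ 1 / 2 :=
      (mul_le_mul_of_nonneg_right h1 (Real.exp_pos _).le).trans n2
    have h3 : Real.exp (-u) ≤ Real.exp (u0 - u) := Real.exp_le_exp.mpr (by linarith)
    have h4 : 0 < Real.exp (u0 - u) := Real.exp_pos _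
    calc 4 * ((K : ℝ) * K) * (Real.exp (u0 - u) * Real.exp (-u)) +
          9 * (Real.exp (-u) * Real.exp (-u))
        = (4 * ((K : ℝ) * K) * Real.exp (-u)) * Real.exp (u0 - u) +
          (9 * Real.exp (-u)) * Real.exp (-u) := by ring
      _ ≤ 1 / 2 * Real.exp (u0 - u) + 1 / 2 * Real.exp (u0 - u) :=
          add_le_add (mul_le_mul_of_nonneg_right h2 h4.le)
            (mul_le_mul n3 h3 (Real.exp_pos _).le (by norm_num))
      _ = Real.exp (u0 - u) := by ring

end TH992.T
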