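import Pool.Agent.H984R4.NP.Moments
import Pool.Agent.H984R3.Per.Pot

/-!
Every pair (vertex of the cluster, corner face of the dual cluster) is visited by the exploration
path.
-/

set_option autoImplicit false

namespace TH992.T

open H974 Finset H342P H984P H984N

/-- The face is outside of the rectangle. -/
def Out (D : Dm) (f : Vtx) : Prop := ¬ ((D.l ≤ f.1 ∧ f.1 < D.r) ∧ 0 ≤ f.2 ∧ f.2 < D.h)

/-- Some iterate of `σ` is `τ`, and all the faces before are outside of the rectangle. -/
def WQ (D : Dm) (C : Set Edg) (σ τ : St) : Prop :=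
  ∃ m, orb C σ m = τ ∧ ∀ i ≤ m, Out D (face (orb C σ i))

theorem WQ.refl {D : Dm} {C : Set Edg} {σ : St} (h : Out D (face σ)) : WQ D C σ σ :=
  ⟨0, rfl, fun i hi => by rw [Nat.le_zero.mp hi]; exact h⟩

theorem WQ.trans {D : Dm} {C : Set Edg} {σ τ ρ : St} (h : WQ D C σ τ) (h' : WQ D C τ ρ) :
    WQ D C σ ρ := by
  obtain ⟨m, hm, hm'⟩ := h
  obtain ⟨n, hn, hn'⟩ := h'
  refine ⟨n + m, by rw [orb_add, hm, hn], fun i hi => ?_⟩
  rcases Nat.le_total i m with h1 | h1
  · exact hm' i h1
  · have e : i = (i - m) + m := by omega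
    rw [e, orb_add, hm]
    exact hn' _ (by omega)

theorem WQ.op {D : Dm} {C : Set Edg} {σ τ : St} (h : ae σ ∈ C) (h' : mv σ = τ)
    (h1 : Out D (face σ)) (h2 : Out D (face τ)) : WQ D C σ τ := by
  have e : orb C σ 1 = τ := by rw [orb_succ, orb_zero, nxt_open h, h']
  refine ⟨1, e, fun i hi => ?_⟩
  interval_cases i
  · exact h1
  · rw [e]; exact h2

theorem WQ.cl {D : Dm} {C : Set Edg} {σ τ : St} (h : ae σ ∉ C) (h' : rt σ = τ)
    (h1 : Out D (face σ)) (h2 : Out D (face τ)) : WQ D C σ τ := by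
  have e : orb C σ 1 = τ := by rw [orb_succ, orb_zero, nxt_closed h, h']
  refine ⟨1, e, fun i hi => ?_⟩
  interval_cases i
  · exact h1
  · rw [e]; exact h2

theorem wq_bottom {D : Dm} (hD : D.Ok) {F : Finset Edg} (hF : F ⊆ D.edges) (k : ℕ)
    (hk : D.l ≤ -(k:ℤ)) : WQ D (D.cfg F) Dm.stop ((-(k:ℤ), 0), .se) := by
  induction k with
  | zero =>
    have : ((-((0:ℕ):ℤ), (0:ℤ)), Q4.se) = Dm.stop := by simp [Dm.stop]
    rw [this]
    exact WQ.refl (by simp [Out, Dm.stop])
  | succ k ih =>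
    have ih' := ih (by push_cast at hk; linarith)
    refine ih'.trans ((WQ.cl (τ := ((-(k:ℤ), 0), .sw)) ?_ rfl ?_ ?_).trans (WQ.op ?_ ?_ ?_ ?_))
    · apply Walk_not_cfg hD hF
      rw [ae_se]
      simp only [src_mk, tgt_false, inR]
      omega
    · simp [Out]
    · simp [Out]
    · rw [ae_sw]
      push_cast at hk
      refine Or.inr (Or.inr (Or.inr ⟨rfl, rfl, ?_, ?_⟩))
      · show D.l ≤ -(k:ℤ) - 1
        linarith
      · show -(k:ℤ) - 1 < 0
        linarith [Int.natCast_nonneg k]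
    · rw [mv_sw]
      push_cast
      congr 2
      ring
    · simp [Out]
    · simp [Out]

theorem wq_left {D : Dm} (hD : D.Ok) {F : Finset Edg} (hF : F ⊆ D.edges) (k : ℕ)
    (hk : (k:ℤ) ≤ D.h) : WQ D (D.cfg F) ((D.l, 0), .sw) ((D.l, (k:ℤ)), .sw) := by
  induction k with
  | zero => exact WQ.refl (by simp [Out])
  | succ k ih =>
    have ih' := ih (by push_cast at hk; linarith)
    refine ih'.trans ((WQ.cl (τ := ((D.l, (k:ℤ)), .nw)) ?_ rfl ?_ ?_).trans (WQ.op ?_ ?_ ?_ ?_))
    · apply Walk_not_cfg hD hF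
      rw [ae_sw]
      simp only [src_mk, tgt_true, inR]
      omega
    · simp [Out]
    · simp [Out]
    · rw [ae_nw]
      push_cast at hk
      refine Or.inr (Or.inr (Or.inl ⟨rfl, rfl, ?_, ?_⟩))
      · show 0 ≤ (k:ℤ)
        positivity
      · show (k:ℤ) < D.h
        linarith
    · rw [mv_nw]
      push_cast
      rfl
    · simp [Out]
    · simp [Out]

theorem wq_top {D : Dm} (hD : D.Ok) {F : Finset Edg} (hF : F ⊆ D.edges) (k : ℕ)
    (hk : D.l + (k:ℤ) ≤ D.t) :
    WQ D (D.cfg F) ((D.l, D.h), .ne) ((D.l + (k:ℤ), D.h), .ne) := by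
  induction k with
  | zero =>
    have : ((D.l + ((0:ℕ):ℤ), D.h), Q4.ne) = ((D.l, D.h), Q4.ne) := by simp
    rw [this]
    exact WQ.refl (by simp [Out])
  | succ k ih =>
    have ih' := ih (by push_cast at hk; linarith)
    refine ih'.trans ((WQ.op (τ := ((D.l + (k:ℤ) + 1, D.h), .nw)) ?_ ?_ ?_ ?_).trans
      (WQ.cl ?_ ?_ ?_ ?_))
    · rw [ae_ne]
      push_cast at hk
      refine Or.inr (Or.inl ⟨rfl, rfl, ?_, ?_⟩)
      · show D.l ≤ D.l + (k:ℤ)
        linarith [Int.natCast_nonneg k]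
      · show D.l + (k:ℤ) < D.t
        linarith
    · rw [mv_ne]
    · simp [Out]
    · simp [Out]
    · apply Walk_not_cfg hD hF
      rw [ae_nw]
      simp only [src_mk, tgt_false, inR]
      omega
    · rw [rt_nw]
      push_cast
      congr 2
      ring
    · simp [Out]
    · simp [Out]

/-- The last state is followed by the first one. -/
theorem wq_stop_start {D : Dm} (hD : D.Ok) {F : Finset Edg} (hF : F ⊆ D.edges) :
    WQ D (D.cfg F) Dm.stop D.start := by
  have h1 := hD.l_neg
  have h3 := hD.h_pos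
  have h4 := hD.l_le
  obtain ⟨a, ha⟩ := Int.eq_ofNat_of_zero_le (show 0 ≤ -D.l by linarith)
  obtain ⟨b, hb⟩ := Int.eq_ofNat_of_zero_le h3.le
  obtain ⟨c, hc⟩ := Int.eq_ofNat_of_zero_le (show 0 ≤ D.t - D.l by linarith)
  have r1 := wq_bottom hD hF a (by omega)
  rw [show -(a:ℤ) = D.l by omega] at r1
  have r2 : WQ D (D.cfg F) ((D.l, 0), .se) ((D.l, 0), .sw) := by
    refine WQ.cl ?_ rfl (by simp [Out]) (by simp [Out])
    apply Walk_not_cfg hD hF
    rw [ae_se]
    simp only [src_mk, tgt_false, inR]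
    omega
  have r3 := wq_left hD hF b (by omega)
  rw [← show D.h = (b:ℤ) by omega] at r3
  have r4 : WQ D (D.cfg F) ((D.l, D.h), .sw) ((D.l, D.h), .nw) := by
    refine WQ.cl ?_ rfl (by simp [Out]) (by simp [Out])
    apply Walk_not_cfg hD hF
    rw [ae_sw]
    simp only [src_mk, tgt_true, inR]
    omega
  have r5 : WQ D (D.cfg F) ((D.l, D.h), .nw) ((D.l, D.h), .ne) := by
    refine WQ.cl ?_ rfl (by simp [Out]) (by simp [Out])
    apply Walk_not_cfg hD hF
    rw [ae_nw]
    simp only [src_mk, tgt_false, inR]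
    omega
  have r6 := wq_top hD hF c (by omega)
  rw [show D.l + (c:ℤ) = D.t by omega] at r6
  exact ((((r1.trans r2).trans r3).trans r4).trans r5).trans r6

/-- The states of the whole orbit with an inner face are visited before the end. -/
theorem vis_of_orb {D : Dm} (hD : D.Ok) {F : Finset Edg} (hF : F ⊆ D.edges) {σ : St} {k : ℕ}
    (hk : D.walk F k = σ) (hσ : ¬ Out D (face σ)) : D.Vis F σ := by
  obtain ⟨m, hm, hm'⟩ := wq_stop_start hD hF
  have hlen := walk_len hD hF
  have h1 : ∀ i, D.walk F (D.len F + i) = orb (D.cfg F) Dm.stop i := by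
    intro i
    rw [← hlen, Nat.add_comm]
    exact orb_add _ _ _ _
  have hP : D.walk F (D.len F + m) = D.start := by rw [h1, hm]
  have hper : ∀ n i, D.walk F (i + (D.len F + m) * n) = D.walk F i := by
    intro n
    induction n with
    | zero => intro i; rfl
    | succ n ih =>
      intro i
      have e : i + (D.len F + m) * (n + 1) = (i + (D.len F + m) * n) + (D.len F + m) := by ring
      have e2 : D.walk F ((i + (D.len F + m) * n) + (D.len F + m)) =
        orb (D.cfg F) (D.walk F (D.len F + m)) (i + (D.len F + m) * n) := orb_add _ _ _ _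
      rw [e, e2, hP]
      exact ih i
  rcases Nat.eq_zero_or_pos (D.len F + m) with h0 | hpos
  · exfalso
    have h2 : D.len F = 0 := by omega
    have h3 : m = 0 := by omega
    rw [h3, orb_zero] at hm
    have h4 : ∀ k, D.walk F k = D.start := by
      intro k
      have := hper
      rw [h2, h3] at hP
      have h5 : Dm.stop = D.start := hm
      have h6 := hD.h_pos
      have h7 := congrArg (fun σ : St => σ.1.2) h5
      simp only [Dm.stop, Dm.start] at h7
      omega
    rw [h4] at hk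
    apply hσ
    rw [← hk]
    simp [Out, Dm.start]
  · obtain ⟨j, hj, hj2⟩ : ∃ j, j < D.len F + m ∧ D.walk F j = σ := by
      refine ⟨k % (D.len F + m), Nat.mod_lt _ hpos, ?_⟩
      have h2 := hper (k / (D.len F + m)) (k % (D.len F + m))
      rw [Nat.mod_add_div] at h2
      rw [← h2, hk]
    rcases le_or_gt j (D.len F) with h2 | h2
    · exact ⟨j, h2, hj2⟩
    · exfalso
      apply hσ
      have h3 := h1 (j - D.len F)
      rw [show D.len F + (j - D.len F) = j by omega, hj2] at h3
      rw [h3]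
      exact hm' _ (by omega)

/-- outer faces are connected in the complement of the configuration -/
theorem outer_bot {D : Dm} (hD : D.Ok) {F : Finset Edg} (hF : F ⊆ D.edges) (n : ℕ)
    (hn : (n : ℤ) ≤ D.r) : DReach (D.cfg F)ᶜ (0, -1) ((n : ℤ), -1) := by
  induction n with
  | zero => exact DReach.refl _ _
  | succ n ih =>
    push_cast at hn
    refine (ih (by omega)).trans (DAdj.reach ⟨((n : ℤ) + 1, -1, false), ?_, ?_⟩)
    · apply Walk_not_cfg hD hF
      simp only [src_mk, tgt_false, inR]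
      omega
    · left
      simp only [dsrc_false, dtgt_mk, Prod.mk.injEq, and_true]
      push_cast
      omega

theorem outer_right {D : Dm} (hD : D.Ok) {F : Finset Edg} (hF : F ⊆ D.edges) (n : ℕ)
    (hn : (n : ℤ) ≤ D.h + 1) : DReach (D.cfg F)ᶜ (D.r, -1) (D.r, (n : ℤ) - 1) := by
  induction n with
  | zero => exact DReach.refl _ _
  | succ n ih =>
    push_cast at hn
    refine (ih (by omega)).trans (DAdj.reach ⟨(D.r, (n : ℤ), true), ?_, ?_⟩)
    · apply Walk_not_cfg hD hF
      simp only [src_mk, tgt_true, inR]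
      omega
    · left
      simp only [dsrc_true, dtgt_mk, Prod.mk.injEq, true_and]
      push_cast
      omega

theorem outer_top {D : Dm} (hD : D.Ok) {F : Finset Edg} (hF : F ⊆ D.edges) (n : ℕ) :
    DReach (D.cfg F)ᶜ (D.r, D.h) (D.r - (n : ℤ), D.h) := by
  induction n with
  | zero =>
    simp only [Nat.cast_zero, sub_zero]
    exact DReach.refl _ _
  | succ n ih =>
    refine ih.trans (DAdj.reach ⟨(D.r - (n : ℤ), D.h, false), ?_, ?_⟩)
    · apply Walk_not_cfg hD hF
      simp only [src_mk, tgt_false, inR]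
      omega
    · right
      simp only [dsrc_false, dtgt_mk, Prod.mk.injEq, and_true]
      push_cast
      omega

/-- outer faces are connected to the face of the first state -/
theorem outer_conn {D : Dm} (hD : D.Ok) {F : Finset Edg} (hF : F ⊆ D.edges) {g : Vtx}
    (hg : g ∈ D.outer) : DReach (D.cfg F)ᶜ (D.r, D.h) g := by
  obtain ⟨h1, h2, h3, h4, h5⟩ := hD
  have hD : D.Ok := ⟨h1, h2, h3, h4, h5⟩
  obtain ⟨x, y⟩ := g
  have hr : ∀ y : ℤ, -1 ≤ y → y ≤ D.h → DReach (D.cfg F)ᶜ (D.r, -1) (D.r, y) := by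
    intro y hy1 hy2
    have := outer_right hD hF (y + 1).toNat (by omega)
    rwa [show (((y + 1).toNat : ℕ) : ℤ) - 1 = y by omega] at this
  have hc := (hr D.h (by omega) le_rfl).symm
  rcases hg with hg | hg | hg
  · simp only at hg
    obtain ⟨rfl, hx1, hx2⟩ := hg
    have e1 := outer_bot hD hF x.toNat (by omega)
    have e2 := outer_bot hD hF D.r.toNat (by omega)
    rw [show ((x.toNat : ℕ) : ℤ) = x by omega] at e1
    rw [show ((D.r.toNat : ℕ) : ℤ) = D.r by omega] at e2
    exact hc.trans (e2.symm.trans e1)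
  · simp only at hg
    obtain ⟨rfl, hy1, hy2⟩ := hg
    exact hc.trans (hr y hy1 hy2)
  · simp only at hg
    obtain ⟨rfl, hx1, hx2⟩ := hg
    have e1 := outer_top hD hF (D.r - x).toNat
    rwa [show D.r - (((D.r - x).toNat : ℕ) : ℤ) = x by omega] at e1

/-- A vertex of the cluster and an inner corner face of the dual cluster are visited. -/
theorem vis_of {D : Dm} (hD : D.Ok) {F : Finset Edg} (hF : F ⊆ D.edges) {σ : St}
    (h1 : σ.1 ∈ D.clu F) (h2 : face σ ∈ D.dclu F) (h3 : ¬ Out D (face σ)) : D.Vis F σ := by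
  set A : Set St := {τ | ∃ k, D.walk F k = τ} with hA
  have hinv : ∀ τ, τ ∈ A ↔ nxt (D.cfg F) τ ∈ A := by
    intro τ
    constructor
    · rintro ⟨k, rfl⟩
      exact ⟨k + 1, walk_succ D F k⟩
    · rintro ⟨k, hk⟩
      obtain ⟨P, hP, hP2⟩ := Walk_periodic hD hF
      have hinj := (nxt_bij (D.cfg F)).1
      rcases k with _ | k
      · refine ⟨P - 1, hinj ?_⟩
        rw [← walk_succ, show P - 1 + 1 = P by omega, hP2, ← hk]
        rfl
      · exact ⟨k, hinj (by rw [← walk_succ, hk])⟩
  obtain ⟨hv, hf, p1, p2, p3⟩ := pot_of_inv (D.cfg F) A hinv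
  have rv : ∀ {u v : Vtx}, Reach (D.cfg F) u v → hv u = hv v := by
    intro u v h
    induction h with
    | refl => rfl
    | tail _ hs ih =>
      obtain ⟨e, he, hc⟩ := hs
      have h1 := p2 e he
      rcases hc with ⟨h2, h3⟩ | ⟨h2, h3⟩
      · rw [ih, ← h2, ← h3, h1]
      · rw [ih, ← h2, ← h3, h1]
  have rf : ∀ {u v : Vtx}, DReach (D.cfg F)ᶜ u v → hf u = hf v := by
    intro u v h
    induction h with
    | refl => rfl
    | tail _ hs ih =>
      obtain ⟨e, he, hc⟩ := hs
      have h1 := p3 e he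
      rcases hc with ⟨h2, h3⟩ | ⟨h2, h3⟩
      · rw [ih, ← h2, ← h3, h1]
      · rw [ih, ← h2, ← h3, h1]
  have s0 : D.start ∈ A := ⟨0, rfl⟩
  have c1 : hv D.start.1 = hv σ.1 := by
    have a1 : Reach (D.cfg F) (0, 0) D.start.1 := clu_start hD F
    exact rv (a1.symm.trans h1)
  have c2 : hf (face D.start) = hf (face σ) := by
    obtain ⟨g, hg, hr⟩ := h2
    have a1 : face D.start ∈ D.outer := by
      refine Or.inr (Or.inr ⟨rfl, le_rfl, hD.le_r⟩)
    have a2 := outer_conn hD hF a1
    have a3 := outer_conn hD hF hg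
    refine rf ((a2.symm.trans a3).trans (hr.mono ?_))
    exact fun e he => he.2
  have hσ : σ ∈ A := by
    have e1 := p1 D.start
    have e2 := p1 σ
    rw [c1, c2, e2, b2_of s0] at e1
    by_contra hcon
    rw [b2_not_of hcon] at e1
    exact absurd e1 (by decide)
  obtain ⟨k, hk⟩ := hσ
  exact vis_of_orb hD hF hk h3

end TH992.T
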